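import Pool.Agent.N428.FM.Def
import Pool.Agent.R580.CD.Gam

/-!
# The gamma-vector from the face polynomial
-/

set_option autoImplicit false
set_option linter.unusedSectionVars false

namespace Pool.Agent.N428.FM

open Finset Polynomial Pool.Agent.R580.CD

section

variable {V : Type} [Fintype V] [LinearOrder V]

theorem coeff_fp (G : SimpleGraph V) (i : ℕ) : (fp G Set.univ).coeff i = (fnum G i : ℤ) := by
  classical
  unfold fp fnum
  rw [finsetSum_coeff]
  have h1 : ∀ T : Finset V, (if G.IsClique (T : Set V) ∧ (T : Set V) ⊆ Set.univ then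
      (X : ℤ[X]) ^ T.card else 0).coeff i = if G.IsClique (T : Set V) ∧ T.card = i then 1 else 0 := by
    intro T
    by_cases h2 : G.IsClique (T : Set V)
    · by_cases h3 : T.card = i
      · simp [h2, h3]
      · rw [if_pos ⟨h2, Set.subset_univ _⟩, if_neg (fun h => h3 h.2), coeff_X_pow, if_neg (Ne.symm h3)]
    · rw [if_neg (fun h => h2 h.1), if_neg (fun h => h2 h.1), coeff_zero]
  rw [Finset.sum_congr rfl fun T _ => h1 T, Finset.sum_boole, Nat.card_eq_fintype_card,
    Fintype.card_subtype]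

/-- the h-polynomial -/
noncomputable def Ga (r : ℕ) (γ : ℕ → ℚ) : ℚ[X] :=
  ∑ i ∈ Finset.range (r + 1), C (γ i) * X ^ i * (1 + X) ^ (2 * r - 2 * i)

theorem Ga_deg (r : ℕ) (γ : ℕ → ℚ) : (Ga r γ).natDegree ≤ 2 * r := by
  unfold Ga
  refine natDegree_sum_le_of_forall_le _ _ fun i hi => ?_
  rw [Finset.mem_range] at hi
  have h1 : (C (γ i) * X ^ i * (1 + X) ^ (2 * r - 2 * i) : ℚ[X]).natDegree ≤ i + (2 * r - 2 * i) := by
    refine natDegree_mul_le.trans ?_
    refine Nat.add_le_add ?_ ?_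
    · exact natDegree_C_mul_X_pow_le _ _
    · refine natDegree_pow_le.trans ?_
      have : (1 + X : ℚ[X]).natDegree ≤ 1 := by
        refine (natDegree_add_le _ _).trans ?_
        simp
      calc (2 * r - 2 * i) * (1 + X : ℚ[X]).natDegree ≤ (2 * r - 2 * i) * 1 := Nat.mul_le_mul_left _ this
        _ = _ := mul_one _
  omega

theorem Phi_deg (r : ℕ) (γ : ℕ → ℤ) : (Phi (2 * r) γ).natDegree ≤ 2 * r := by
  unfold Phi
  refine natDegree_sum_le_of_forall_le _ _ fun i hi => ?_
  rw [Finset.mem_range] at hi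
  have h1 : (C (γ i) * (X + X ^ 2) ^ i * (1 + 2 * X) ^ (2 * r - 2 * i) : ℤ[X]).natDegree ≤
      2 * i + (2 * r - 2 * i) := by
    refine natDegree_mul_le.trans ?_
    refine Nat.add_le_add ?_ ?_
    · refine (natDegree_C_mul_le _ _).trans ?_
      refine natDegree_pow_le.trans ?_
      have : (X + X ^ 2 : ℤ[X]).natDegree ≤ 2 := by
        refine (natDegree_add_le _ _).trans ?_
        simp
      calc i * (X + X ^ 2 : ℤ[X]).natDegree ≤ i * 2 := Nat.mul_le_mul_left _ this
        _ = _ := mul_comm _ _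
    · refine natDegree_pow_le.trans ?_
      have : (1 + 2 * X : ℤ[X]).natDegree ≤ 1 := by
        refine (natDegree_add_le _ _).trans ?_
        rw [natDegree_one]
        refine max_le (by omega) ?_
        have h2 : (2 * X : ℤ[X]) = C 2 * X := rfl
        rw [h2]
        exact (natDegree_C_mul_le _ _).trans (by simp)
      calc (2 * r - 2 * i) * (1 + 2 * X : ℤ[X]).natDegree ≤ (2 * r - 2 * i) * 1 := Nat.mul_le_mul_left _ this
        _ = _ := mul_one _
  omega

theorem inf_ne (c : ℚ) : Set.Infinite {x : ℚ | x ≠ c} := by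
  have : {x : ℚ | x ≠ c} = ({c} : Set ℚ)ᶜ := by
    ext x
    simp
  rw [this]
  exact Set.Finite.infinite_compl (Set.finite_singleton c)

theorem Ga_palin (r : ℕ) (γ : ℕ → ℚ) :
    ∑ i ∈ Finset.range (2 * r + 1), C ((Ga r γ).coeff i) * X ^ (2 * r - i) = Ga r γ := by
  refine eq_of_infinite_eval_eq _ _ ((inf_ne 0).mono ?_)
  intro x hx
  have hx : x ≠ 0 := hx
  show eval x _ = eval x _
  rw [eval_finsetSum]
  have h1 : ∀ i ∈ Finset.range (2 * r + 1), eval x (C ((Ga r γ).coeff i) * X ^ (2 * r - i)) =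
      x ^ (2 * r) * ((Ga r γ).coeff i * (x⁻¹) ^ i) := by
    intro i hi
    rw [Finset.mem_range] at hi
    rw [eval_mul, eval_C, eval_pow, eval_X]
    have : x ^ (2 * r) = x ^ (2 * r - i) * x ^ i := by
      rw [← pow_add]
      congr 1
      omega
    rw [this, inv_pow]
    field_simp
  rw [Finset.sum_congr rfl h1, ← Finset.mul_sum, ← eval_eq_sum_range' (Nat.lt_succ_of_le (Ga_deg r γ))]
  unfold Ga
  rw [eval_finsetSum, eval_finsetSum, Finset.mul_sum]
  refine Finset.sum_congr rfl fun i hi => ?_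
  rw [Finset.mem_range] at hi
  simp only [eval_mul, eval_C, eval_pow, eval_X, eval_add, eval_one]
  have h2 : x ^ (2 * r) = x ^ i * x ^ i * x ^ (2 * r - 2 * i) := by
    rw [← pow_add, ← pow_add]
    congr 1
    omega
  rw [h2]
  have h3 : x ^ (2 * r - 2 * i) * (1 + x⁻¹) ^ (2 * r - 2 * i) = (1 + x) ^ (2 * r - 2 * i) := by
    rw [← mul_pow]
    congr 1
    field_simp
    ring
  rw [← h3, inv_pow]
  field_simp

theorem Ga_eq {G : SimpleGraph V} {r : ℕ} {γ : ℕ → ℤ} (hg : fp G Set.univ = Phi (2 * r) γ) :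
    ∑ i ∈ Finset.range (2 * r + 1), C (fnum G i : ℚ) * (X - 1) ^ (2 * r - i) = Ga r (fun i => (γ i : ℚ)) := by
  refine eq_of_infinite_eval_eq _ _ ((inf_ne 1).mono ?_)
  intro x hx
  have hx : x ≠ 1 := hx
  have hy : x - 1 ≠ 0 := sub_ne_zero.mpr hx
  show eval x _ = eval x _
  rw [eval_finsetSum]
  set p : ℚ[X] := (fp G Set.univ).map (Int.castRingHom ℚ) with hp
  have hc : ∀ i, p.coeff i = (fnum G i : ℚ) := by
    intro i
    rw [hp, coeff_map, coeff_fp]
    simp
  have hd : p.natDegree < 2 * r + 1 := by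
    refine Nat.lt_succ_of_le ?_
    rw [hp]
    refine natDegree_map_le.trans ?_
    rw [hg]
    exact Phi_deg r γ
  have h1 : ∀ i ∈ Finset.range (2 * r + 1), eval x (C (fnum G i : ℚ) * (X - 1) ^ (2 * r - i)) =
      (x - 1) ^ (2 * r) * (p.coeff i * ((x - 1)⁻¹) ^ i) := by
    intro i hi
    rw [Finset.mem_range] at hi
    rw [eval_mul, eval_C, eval_pow, eval_sub, eval_X, eval_one, hc]
    have : (x - 1) ^ (2 * r) = (x - 1) ^ (2 * r - i) * (x - 1) ^ i := by
      rw [← pow_add]
      congr 1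
      omega
    rw [this, inv_pow]
    field_simp
  rw [Finset.sum_congr rfl h1, ← Finset.mul_sum, ← eval_eq_sum_range' hd, hp, hg]
  unfold Phi Ga
  rw [show 2 * r / 2 = r by omega, Polynomial.map_sum, eval_finsetSum, eval_finsetSum, Finset.mul_sum]
  refine Finset.sum_congr rfl fun i hi => ?_
  rw [Finset.mem_range] at hi
  simp only [Polynomial.map_mul, Polynomial.map_pow, Polynomial.map_add, map_X, map_C, Polynomial.map_one,
    Polynomial.map_ofNat, eval_mul, eval_C, eval_pow, eval_X, eval_add, eval_one, eval_ofNat]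
  have h5 : (Int.castRingHom ℚ) (γ i) = (γ i : ℚ) := rfl
  rw [h5]
  have h2 : (x - 1) ^ (2 * r) = ((x - 1) ^ 2) ^ i * (x - 1) ^ (2 * r - 2 * i) := by
    rw [← pow_mul, ← pow_add]
    congr 1
    omega
  rw [h2]
  have h3 : (x - 1) ^ (2 * r - 2 * i) * (1 + 2 * (x - 1)⁻¹) ^ (2 * r - 2 * i) = (1 + x) ^ (2 * r - 2 * i) := by
    rw [← mul_pow]
    congr 1
    field_simp
    ring
  have h4 : ((x - 1) ^ 2) ^ i * ((x - 1)⁻¹ + (x - 1)⁻¹ ^ 2) ^ i = x ^ i := by
    rw [← mul_pow]
    congr 1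
    field_simp
    ring
  rw [← h3, ← h4]
  ring

/-- the gamma-vector from the face polynomial -/
theorem isGamma_of_Phi {G : SimpleGraph V} {r : ℕ} {γ : ℕ → ℤ} (hg : fp G Set.univ = Phi (2 * r) γ) :
    IsGamma r G (fun i => (γ i : ℚ)) := by
  refine ⟨fun i => (Ga r (fun i => (γ i : ℚ))).coeff i, ?_, ?_⟩
  · unfold IsH
    rw [Ga_palin, Ga_eq hg]
  · have h1 := as_sum_range' (Ga r (fun i => (γ i : ℚ))) (2 * r + 1) (Nat.lt_succ_of_le (Ga_deg r _))
    refine Eq.trans ?_ h1.symm
    refine Finset.sum_congr rfl fun i _ => ?_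
    rw [C_mul_X_pow_eq_monomial]

theorem Ga_inj {r : ℕ} {γ : ℕ → ℚ} (h : Ga r γ = 0) : ∀ i, i ≤ r → γ i = 0 := by
  intro i
  induction i using Nat.strong_induction_on with
  | _ i ih =>
    intro hi
    have h1 := congrArg (fun p => p.coeff i) h
    simp only [coeff_zero] at h1
    unfold Ga at h1
    rw [finsetSum_coeff, Finset.sum_eq_single i] at h1
    · rw [mul_assoc, coeff_C_mul, coeff_X_pow_mul', if_pos le_rfl, Nat.sub_self, coeff_zero_eq_eval_zero] at h1
      simpa using h1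
    · intro j _ hj
      rcases lt_or_gt_of_ne hj with h2 | h2
      · rw [ih j h2 (by omega), C_0, zero_mul, zero_mul, coeff_zero]
      · rw [mul_assoc, coeff_C_mul, coeff_X_pow_mul', if_neg (by omega), mul_zero]
    · intro h2
      exfalso
      apply h2
      rw [Finset.mem_range]
      omega

/-- the gamma-vector is unique -/
theorem isGamma_unique {U : Type} {G : SimpleGraph U} {r : ℕ} {γ γ' : ℕ → ℚ} (h1 : IsGamma r G γ)
    (h2 : IsGamma r G γ') : ∀ i, i ≤ r → γ i = γ' i := by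
  obtain ⟨h, hh, hg⟩ := h1
  obtain ⟨h', hh', hg'⟩ := h2
  have hc : ∀ (k : ℕ → ℚ) (j : ℕ), j ≤ 2 * r →
      (∑ i ∈ Finset.range (2 * r + 1), C (k i) * X ^ (2 * r - i)).coeff (2 * r - j) = k j := by
    intro k j hj
    rw [finsetSum_coeff, Finset.sum_eq_single j]
    · rw [coeff_C_mul, coeff_X_pow, if_pos rfl, mul_one]
    · intro i hi hij
      rw [Finset.mem_range] at hi
      rw [coeff_C_mul, coeff_X_pow, if_neg (by omega), mul_zero]
    · intro h2
      exfalso
      apply h2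
      rw [Finset.mem_range]
      omega
  have he : ∀ j, j ≤ 2 * r → h j = h' j := by
    intro j hj
    rw [← hc h j hj, ← hc h' j hj]
    unfold IsH at hh hh'
    rw [hh, hh']
  have h3 : Ga r γ = Ga r γ' := by
    unfold Ga
    rw [← hg, ← hg']
    refine Finset.sum_congr rfl fun i hi => ?_
    rw [Finset.mem_range] at hi
    rw [he i (by omega)]
  have h4 : Ga r (fun i => γ i - γ' i) = 0 := by
    have : Ga r (fun i => γ i - γ' i) = Ga r γ - Ga r γ' := by
      unfold Ga
      rw [← Finset.sum_sub_distrib]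
      refine Finset.sum_congr rfl fun i _ => ?_
      rw [C_sub]
      ring
    rw [this, h3, sub_self]
  intro i hi
  exact sub_eq_zero.mp (Ga_inj h4 i hi)

end

end Pool.Agent.N428.FM
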