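import Pool.Agent.R580.CD.Sph

/-!
# Flag homology manifolds, their h- and gamma-vectors, and the joins of cycles

A flag simplicial complex is the complex of the cliques of a graph `G`.
-/

set_option autoImplicit false
set_option linter.unusedSectionVars false

namespace Pool.Agent.N428.FM

open Finset Polynomial Pool.Agent.R580.CD

/-- `f_(i-1)`: the number of the faces with `i` vertices of the clique complex of `G` -/
noncomputable def fnum {V : Type} (G : SimpleGraph V) (i : ℕ) : ℕ :=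
  Nat.card {T : Finset V // G.IsClique (T : Set V) ∧ T.card = i}

/-- `h` is the h-vector: `∑ h_i x^(d-i) = ∑ f_(i-1) (x-1)^(d-i)` -/
def IsH {V : Type} (d : ℕ) (G : SimpleGraph V) (h : ℕ → ℚ) : Prop :=
  ∑ i ∈ Finset.range (d + 1), C (h i) * X ^ (d - i) =
    ∑ i ∈ Finset.range (d + 1), C (fnum G i : ℚ) * (X - 1) ^ (d - i)

/-- `γ` is the gamma-vector (for `d = 2r`): `∑ h_i x^i = ∑ γ_i x^i (1+x)^(d-2i)` -/
def IsGamma {V : Type} (r : ℕ) (G : SimpleGraph V) (γ : ℕ → ℚ) : Prop :=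
  ∃ h : ℕ → ℚ, IsH (2 * r) G h ∧
    ∑ i ∈ Finset.range (2 * r + 1), C (h i) * X ^ i =
      ∑ i ∈ Finset.range (r + 1), C (γ i) * X ^ i * (1 + X) ^ (2 * r - 2 * i)

/-- The clique complex of `G` is a homology `(d-1)`-manifold: for every nonempty face `T` and every field `F`,
the link of `T` has the homology over `F` of the sphere of dimension `d - 1 - |T|`
(`betti F G A i` is the reduced Betti number in dimension `i - 1` of the complex of the cliques in `A`). -/
def FlagManifold {V : Type} [Fintype V] [LinearOrder V] (d : ℕ) (G : SimpleGraph V) : Prop :=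
  ∀ T : Finset V, G.IsClique (T : Set V) → T.Nonempty → ∀ (F : Type) [Field F] (i : ℕ),
    betti F G (lnk G T) i = if i + T.card = d then 1 else 0

/-- adjacency in the cycle with the vertices `0, ..., m - 1` -/
def cyc (m u v : ℕ) : Prop :=
  u ≠ v ∧ (u + 1 = v ∨ v + 1 = u ∨ (u = 0 ∧ v + 1 = m) ∨ (v = 0 ∧ u + 1 = m))

/-- the join of cycles with `a 0, ..., a (r - 1)` vertices -/
def JJ {r : ℕ} (a : Fin r → ℕ) : SimpleGraph ((j : Fin r) × Fin (a j)) where
  Adj x y := x.1 ≠ y.1 ∨ (x.1 = y.1 ∧ cyc (a x.1) x.2.val y.2.val)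
  symm := ⟨fun x y h => by
    rcases h with h | ⟨h1, h2, h3⟩
    · exact Or.inl h.symm
    · refine Or.inr ⟨h1.symm, h2.symm, ?_⟩
      have e := congrArg a h1
      omega⟩
  loopless := ⟨fun x h => by
    rcases h with h | ⟨_, h2, _⟩
    · exact h rfl
    · exact h2 rfl⟩

/-- Q1 for the gamma-numbers: for all large `n` the ratios `ρ_i = γ_i(M) / γ_i(J_r(n))` satisfy
`ρ_1 ≥ ... ≥ ρ_r` for all flag homology `(2r-1)`-manifolds `M` with `n` vertices. -/
def GammaMonotone (r : ℕ) : Prop :=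
  ∃ n₀ : ℕ, ∀ n ≥ n₀, ∀ a : Fin r → ℕ, ∑ j, a j = n → (∀ j k, a j ≤ a k + 1) →
    ∀ (V : Type) [Fintype V] [LinearOrder V] (G : SimpleGraph V), Fintype.card V = n →
      FlagManifold (2 * r) G → ∀ γ γJ : ℕ → ℚ, IsGamma r G γ → IsGamma r (JJ a) γJ →
        ∀ i, 1 ≤ i → i < r → γ (i + 1) / γJ (i + 1) ≤ γ i / γJ i

/-- the same for the connected manifolds -/
def GammaMonotoneConnected (r : ℕ) : Prop :=
  ∃ n₀ : ℕ, ∀ n ≥ n₀, ∀ a : Fin r → ℕ, ∑ j, a j = n → (∀ j k, a j ≤ a k + 1) →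
    ∀ (V : Type) [Fintype V] [LinearOrder V] (G : SimpleGraph V), Fintype.card V = n → G.Connected →
      FlagManifold (2 * r) G → ∀ γ γJ : ℕ → ℚ, IsGamma r G γ → IsGamma r (JJ a) γJ →
        ∀ i, 1 ≤ i → i < r → γ (i + 1) / γJ (i + 1) ≤ γ i / γJ i

end Pool.Agent.N428.FM
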