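import Pool.Agent.N428.FM.Bridge

/-!
# The gamma-vector of the join of cycles
-/

set_option autoImplicit false
set_option linter.unusedSectionVars false

namespace Pool.Agent.N428.FM

open Finset Polynomial Pool.Agent.R580.CD

/-- some linear order on a finite type -/
@[reducible] noncomputable def someOrder (U : Type) [Fintype U] : LinearOrder U :=
  LinearOrder.lift' (Fintype.equivFin U) (Fintype.equivFin U).injective

section

variable {r : ℕ} (a : Fin (r + 1) → ℕ)

/-- the vertices of the join of `r + 1` cycles -/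
def jf : ((j : Fin r) × Fin (a j.castSucc)) ⊕ₗ Fin (a (Fin.last r)) → (j : Fin (r + 1)) × Fin (a j) :=
  fun p => Sum.elim (fun x => (⟨x.1.castSucc, x.2⟩ : (j : Fin (r + 1)) × Fin (a j)))
    (fun y => ⟨Fin.last r, y⟩) (ofLex p)

theorem jf_inj : Function.Injective (jf a) := by
  intro p q h
  apply ofLex.injective
  rcases hp : ofLex p with x | x <;> rcases hq : ofLex q with y | y <;>
    simp only [jf, hp, hq, Sum.elim_inl, Sum.elim_inr] at h
  · obtain ⟨j, x⟩ := x
    obtain ⟨k, y⟩ := y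
    rw [Sigma.mk.injEq] at h
    obtain ⟨h1, h2⟩ := h
    have h3 : j = k := Fin.castSucc_injective _ h1
    subst h3
    have h4 : x = y := eq_of_heq h2
    rw [h4]
  · rw [Sigma.mk.injEq] at h
    exact absurd h.1 (Fin.castSucc_lt_last _).ne
  · rw [Sigma.mk.injEq] at h
    exact absurd h.1 (Fin.castSucc_lt_last _).ne'
  · rw [Sigma.mk.injEq] at h
    rw [eq_of_heq h.2]

theorem jf_surj : Function.Surjective (jf a) := by
  rintro ⟨j, y⟩
  induction j using Fin.lastCases with
  | last => exact ⟨toLex (Sum.inr y), rfl⟩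
  | cast j => exact ⟨toLex (Sum.inl ⟨j, y⟩), rfl⟩

theorem jf_adj (inst : LinearOrder ((j : Fin r) × Fin (a j.castSucc))) (p q) :
    (jn (JJ (fun j : Fin r => a j.castSucc)) (a (Fin.last r))).Adj p q ↔ (JJ a).Adj (jf a p) (jf a q) := by
  show jadj _ _ _ _ ↔ _
  rcases hp : ofLex p with x | x <;> rcases hq : ofLex q with y | y <;>
    simp only [jf, hp, hq, Sum.elim_inl, Sum.elim_inr, jadj]
  · show (x.1 ≠ y.1 ∨ (x.1 = y.1 ∧ cyc (a x.1.castSucc) x.2.val y.2.val)) ↔
      (x.1.castSucc ≠ y.1.castSucc ∨ (x.1.castSucc = y.1.castSucc ∧ cyc (a x.1.castSucc) x.2.val y.2.val))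
    rw [ne_eq, ne_eq, Fin.castSucc_inj]
  · rw [true_iff]
    left
    exact (Fin.castSucc_lt_last _).ne
  · rw [true_iff]
    left
    exact (Fin.castSucc_lt_last _).ne'
  · show _ ↔ (Fin.last r ≠ Fin.last r ∨ (Fin.last r = Fin.last r ∧ cyc (a (Fin.last r)) x.val y.val))
    unfold cadj cyc
    rw [ne_eq, ne_eq, ne_eq, Fin.ext_iff]
    simp

end

theorem fp_JJ : ∀ (r : ℕ) (a : Fin r → ℕ) [LinearOrder ((j : Fin r) × Fin (a j))], (∀ j, 4 ≤ a j) →
    fp (JJ a) Set.univ = ∏ j, (1 + (a j : ℤ[X]) * X + (a j : ℤ[X]) * X ^ 2) := by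
  intro r
  induction r with
  | zero =>
    intro a _ _
    rw [Finset.univ_eq_empty, Finset.prod_empty]
    unfold fp
    rw [Finset.sum_eq_single ∅]
    · rw [if_pos (by simp)]
      simp
    · intro T _ hT
      exact absurd (Finset.eq_empty_of_isEmpty T) hT
    · intro h
      exact absurd (mem_univ _) h
  | succ r ih =>
    intro a i2 ha
    let i1 := someOrder ((j : Fin r) × Fin (a j.castSucc))
    have h1 := fp_map (G := jn (JJ (fun j : Fin r => a j.castSucc)) (a (Fin.last r))) (H := JJ a)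
      ⟨jf a, jf_inj a⟩ (A := Set.univ) (fun p _ q _ => jf_adj a i1 p q)
    have h2 : (⟨jf a, jf_inj a⟩ : _ ↪ _) '' (Set.univ) = (Set.univ : Set ((j : Fin (r + 1)) × Fin (a j))) := by
      rw [Set.image_univ]
      exact (jf_surj a).range_eq
    rw [h2, fp_jn (ha _), ih _ (fun j => ha _)] at h1
    rw [h1, Fin.prod_univ_castSucc, mul_comm]

/-- the gamma-numbers of the join of cycles: the elementary symmetric functions of the `a_j - 4` -/
def gJ {r : ℕ} (a : Fin r → ℕ) (i : ℕ) : ℤ :=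
  ∑ S ∈ Finset.powersetCard i (Finset.univ : Finset (Fin r)), ∏ j ∈ S, ((a j : ℤ) - 4)

theorem fp_JJ_Phi {r : ℕ} (a : Fin r → ℕ) [LinearOrder ((j : Fin r) × Fin (a j))] (ha : ∀ j, 4 ≤ a j) :
    fp (JJ a) Set.univ = Phi (2 * r) (gJ a) := by
  rw [fp_JJ r a ha]
  have h1 : ∀ j : Fin r, (1 + (a j : ℤ[X]) * X + (a j : ℤ[X]) * X ^ 2) =
      C ((a j : ℤ) - 4) * (X + X ^ 2) + (1 + 2 * X) ^ 2 := by
    intro j
    have : (C ((a j : ℤ) - 4) : ℤ[X]) = (a j : ℤ[X]) - 4 := by
      rw [C_sub]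
      congr 1
    rw [this]
    ring
  rw [Finset.prod_congr rfl fun j _ => h1 j, Finset.prod_add, Finset.sum_powerset]
  unfold Phi gJ
  rw [Finset.card_univ, Fintype.card_fin, show 2 * r / 2 = r by omega]
  refine Finset.sum_congr rfl fun i hi => ?_
  rw [Finset.mem_range] at hi
  rw [map_sum, Finset.sum_mul, Finset.sum_mul]
  refine Finset.sum_congr rfl fun S hS => ?_
  rw [Finset.mem_powersetCard] at hS
  rw [Finset.prod_mul_distrib, Finset.prod_const, hS.2, Finset.prod_const, Finset.card_sdiff_of_subset hS.1, hS.2,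
    Finset.card_univ, Fintype.card_fin, ← map_prod, ← pow_mul]
  congr 2
  omega

theorem gJ_pos {r : ℕ} {a : Fin r → ℕ} (ha : ∀ j, 5 ≤ a j) {i : ℕ} (hi : i ≤ r) : 0 < gJ a i := by
  unfold gJ
  refine Finset.sum_pos ?_ ?_
  · intro S _
    refine Finset.prod_pos fun j _ => ?_
    have := ha j
    omega
  · rw [Finset.powersetCard_nonempty, Finset.card_univ, Fintype.card_fin]
    exact hi

theorem isGamma_JJ {r : ℕ} {a : Fin r → ℕ} (ha : ∀ j, 4 ≤ a j) : IsGamma r (JJ a) (fun i => (gJ a i : ℚ)) := by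
  let _ := someOrder ((j : Fin r) × Fin (a j))
  exact isGamma_of_Phi (fp_JJ_Phi a ha)

/-- the balanced sizes -/
def bal (n r : ℕ) : Fin r → ℕ := fun j => n / r + if j.val < n % r then 1 else 0

theorem bal_sum (n : ℕ) {r : ℕ} (hr : 0 < r) : ∑ j, bal n r j = n := by
  unfold bal
  rw [Finset.sum_add_distrib, Finset.sum_const, Finset.card_univ, Fintype.card_fin, smul_eq_mul]
  have h1 : ∑ j : Fin r, (if j.val < n % r then 1 else 0) = n % r := by
    rw [Fin.sum_univ_eq_sum_range (fun j => if j < n % r then 1 else 0) r, ← Finset.sum_filter]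
    have h2 : (Finset.range r).filter (fun j => j < n % r) = Finset.range (n % r) := by
      ext j
      rw [mem_filter, Finset.mem_range, Finset.mem_range]
      have := Nat.mod_lt n hr
      omega
    rw [h2]
    simp
  rw [h1]
  exact Nat.div_add_mod n r

theorem bal_le (n r : ℕ) (j k : Fin r) : bal n r j ≤ bal n r k + 1 := by
  unfold bal
  split_ifs <;> omega

theorem bal_ge {n r c : ℕ} (hr : 0 < r) (h : c * r ≤ n) (j : Fin r) : c ≤ bal n r j := by
  unfold bal
  have := (Nat.le_div_iff_mul_le hr).mpr h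
  omega

end Pool.Agent.N428.FM
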