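import Pool.Agent.N428.FM.Fp
import Pool.Agent.N428.FM.JJ

/-!
# Disjoint unions of two flag homology spheres
-/

set_option autoImplicit false
set_option linter.unusedSectionVars false

namespace Pool.Agent.N428.FM

open Finset Pool.Agent.W907.SG Pool.Agent.R580.CD

section

variable {V W : Type} [Fintype V] [LinearOrder V] [Fintype W] [LinearOrder W]

/-- adjacency in the disjoint union -/
def dadj (G : SimpleGraph V) (H : SimpleGraph W) : V ⊕ W → V ⊕ W → Prop
  | Sum.inl x, Sum.inl y => G.Adj x y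
  | Sum.inl _, Sum.inr _ => False
  | Sum.inr _, Sum.inl _ => False
  | Sum.inr a, Sum.inr b => H.Adj a b

/-- the disjoint union -/
def dj (G : SimpleGraph V) (H : SimpleGraph W) : SimpleGraph (V ⊕ₗ W) where
  Adj p q := dadj G H (ofLex p) (ofLex q)
  symm := ⟨fun p q h => by
    rcases hp : ofLex p with x | a <;> rcases hq : ofLex q with y | b <;> simp only [hp, hq, dadj] at h ⊢
    · exact h.symm
    · exact h.symm⟩
  loopless := ⟨fun p h => by
    rcases hp : ofLex p with x | a <;> simp only [hp, dadj] at h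
    · exact G.loopless.irrefl _ h
    · exact H.loopless.irrefl _ h⟩

/-- the first part -/
def e1 : V ↪ V ⊕ₗ W := ⟨fun x => toLex (Sum.inl x), fun _ _ h => Sum.inl.inj (toLex.injective h)⟩

/-- the second part -/
def e2 : W ↪ V ⊕ₗ W := ⟨fun x => toLex (Sum.inr x), fun _ _ h => Sum.inr.inj (toLex.injective h)⟩

theorem e1_mono : StrictMono (e1 : V ↪ V ⊕ₗ W) := Sum.Lex.inl_strictMono
theorem e2_mono : StrictMono (e2 : W ↪ V ⊕ₗ W) := Sum.Lex.inr_strictMono

variable {G : SimpleGraph V} {H : SimpleGraph W}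

theorem e_cases (p : V ⊕ₗ W) : (∃ x, p = e1 x) ∨ ∃ y, p = e2 y := by
  rcases hp : ofLex p with x | y
  · left
    exact ⟨x, by rw [← toLex_ofLex p, hp]; rfl⟩
  · right
    exact ⟨y, by rw [← toLex_ofLex p, hp]; rfl⟩

theorem dj_part {F : Type} [Field F] {U : Type} [Fintype U] [LinearOrder U] {K : SimpleGraph U} {d : ℕ}
    (hS : Sph F d K) (f : U ↪ V ⊕ₗ W) (hf : StrictMono f) (hadj : ∀ x y, K.Adj x y ↔ (dj G H).Adj (f x) (f y))
    (hcl : ∀ x p, (dj G H).Adj (f x) p → ∃ y, p = f y) {T : Finset (V ⊕ₗ W)}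
    (hT : (dj G H).IsClique (T : Set (V ⊕ₗ W))) {u : U} (hu : f u ∈ T) (i : ℕ) :
    betti F (dj G H) (lnk (dj G H) T) i = if i + T.card = d then 1 else 0 := by
  have hsub : (T : Set (V ⊕ₗ W)) ⊆ f '' Set.univ := by
    intro p hp
    by_cases h : p = f u
    · exact ⟨u, Set.mem_univ _, h.symm⟩
    · obtain ⟨y, hy⟩ := hcl u p (hT hu hp (Ne.symm h))
      exact ⟨y, Set.mem_univ _, hy.symm⟩
  obtain ⟨R, rfl, _⟩ := exists_map f hsub
  have hfa : ∀ x ∈ (Set.univ : Set U), ∀ y ∈ (Set.univ : Set U), K.Adj x y ↔ (dj G H).Adj (f x) (f y) :=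
    fun x _ y _ => hadj x y
  have h1 := lnk_map (G := K) (H := dj G H) f hfa (Set.subset_univ (R : Set U))
  rw [Set.univ_inter] at h1
  have h2 : f '' Set.univ ∩ lnk (dj G H) (R.map f) = lnk (dj G H) (R.map f) := by
    rw [Set.inter_eq_right]
    intro p hp
    obtain ⟨y, hy⟩ := hcl u p ((hp _ hu).symm)
    exact ⟨y, Set.mem_univ _, hy.symm⟩
  rw [h2] at h1
  rw [h1, betti_map (F := F) f hf (fun x _ y _ => hadj x y), hS R ((clique_map f hfa (Set.subset_univ _)).mp hT) i,
    card_map]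

theorem dj_manifold {d : ℕ} (hG : GHS d G) (hH : GHS d H) : FlagManifold d (dj G H) := by
  intro T hT hne F _ i
  obtain ⟨p, hp⟩ := hne
  rcases e_cases p with ⟨x, rfl⟩ | ⟨y, rfl⟩
  · refine dj_part (hG F) e1 e1_mono (fun _ _ => Iff.rfl) ?_ hT hp i
    intro x p h
    rcases e_cases p with ⟨y, rfl⟩ | ⟨y, rfl⟩
    · exact ⟨y, rfl⟩
    · exact absurd h id
  · refine dj_part (hH F) e2 e2_mono (fun _ _ => Iff.rfl) ?_ hT hp i
    intro x p h
    rcases e_cases p with ⟨y, rfl⟩ | ⟨y, rfl⟩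
    · exact absurd h id
    · exact ⟨y, rfl⟩

theorem fp_dj : fp (dj G H) Set.univ + 1 = fp G Set.univ + fp H Set.univ := by
  have h1 := fp_union (G := dj G H) (A := e1 '' Set.univ) (B := e2 '' Set.univ) (by
    rintro _ ⟨x, _, rfl⟩ _ _ ⟨y, _, rfl⟩ _ h
    exact h)
  have h2 : (e1 '' Set.univ : Set (V ⊕ₗ W)) ∪ e2 '' Set.univ = Set.univ := by
    ext p
    simp only [Set.image_univ, Set.mem_union, Set.mem_range, Set.mem_univ, iff_true]
    rcases e_cases p with ⟨y, rfl⟩ | ⟨y, rfl⟩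
    · exact Or.inl ⟨y, rfl⟩
    · exact Or.inr ⟨y, rfl⟩
  have h3 : (e1 '' Set.univ : Set (V ⊕ₗ W)) ∩ e2 '' Set.univ = ∅ := by
    ext p
    simp only [Set.image_univ, Set.mem_inter_iff, Set.mem_range, Set.mem_empty_iff_false, iff_false]
    rintro ⟨⟨x, rfl⟩, ⟨y, h⟩⟩
    exact absurd (toLex.injective h) (by simp)
  rw [h2, h3, fp_empty, fp_map (G := G) (H := dj G H) e1 (fun _ _ _ _ => Iff.rfl),
    fp_map (G := H) (H := dj G H) e2 (fun _ _ _ _ => Iff.rfl)] at h1
  exact h1

end

/-- joins of a cycle with `m` vertices and `k` cycles with 4 vertices -/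
theorem exists_sph {m : ℕ} (hm : 4 ≤ m) : ∀ k : ℕ, ∃ (V : Type) (_ : Fintype V) (_ : LinearOrder V)
    (G : SimpleGraph V), GHS (2 * (k + 1)) G ∧ Fintype.card V = m + 4 * k ∧
      fp G Set.univ = ((m : Polynomial ℤ) - 4) * (Polynomial.X + Polynomial.X ^ 2) *
        (1 + 2 * Polynomial.X) ^ (2 * k) + (1 + 2 * Polynomial.X) ^ (2 * k + 2) := by
  intro k
  induction k with
  | zero =>
    have h0 : GHS 0 (⊥ : SimpleGraph (Fin 0)) := by
      intro F _ T _ i
      have h1 : T = ∅ := Finset.eq_empty_of_isEmpty T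
      subst h1
      have h2 : lnk (⊥ : SimpleGraph (Fin 0)) ∅ = ∅ := by
        ext x
        exact x.elim0
      rw [h2, sp_empty i]
      simp
    refine ⟨Fin 0 ⊕ₗ Fin m, inferInstance, inferInstance, jn ⊥ m, fun F _ => jn_sph hm (h0 F), ?_, ?_⟩
    · show Fintype.card (Fin 0 ⊕ Fin m) = _
      rw [Fintype.card_sum, Fintype.card_fin, Fintype.card_fin]
      omega
    · rw [fp_jn hm]
      have h2 : (Set.univ : Set (Fin 0)) = ∅ := by
        ext x
        exact x.elim0
      rw [h2, fp_empty]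
      ring
  | succ k ih =>
    obtain ⟨V, i1, i2, G, h1, h2, h3⟩ := ih
    refine ⟨V ⊕ₗ Fin 4, inferInstance, inferInstance, jn G 4, fun F _ => jn_sph le_rfl (h1 F), ?_, ?_⟩
    · show Fintype.card (V ⊕ Fin 4) = _
      rw [Fintype.card_sum, Fintype.card_fin, h2]
      omega
    · rw [fp_jn le_rfl, h3]
      push_cast
      ring

/-- the gamma-vector of the disjoint union -/
def gd (r m i : ℕ) : ℤ := (-1) * ((-4) ^ i * (r.choose i : ℤ)) +
  ((if i = 1 then (m : ℤ) - 4 else 0) + (if i = 0 then 2 else 0))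

theorem exists_disj {r m : ℕ} (hr : 1 ≤ r) (hm : 4 ≤ m) : ∃ (V : Type) (_ : Fintype V) (_ : LinearOrder V)
    (G : SimpleGraph V), FlagManifold (2 * r) G ∧ Fintype.card V = m + 8 * r - 4 ∧
      fp G Set.univ = Phi (2 * r) (gd r m) := by
  obtain ⟨V, i1, i2, G, h1, h2, h3⟩ := exists_sph hm (r - 1)
  obtain ⟨W, j1, j2, H, k1, k2, k3⟩ := exists_sph (m := 4) le_rfl (r - 1)
  have e : 2 * (r - 1 + 1) = 2 * r := by omega
  rw [e] at h1 k1
  refine ⟨V ⊕ₗ W, inferInstance, inferInstance, dj G H, dj_manifold h1 k1, ?_, ?_⟩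
  · show Fintype.card (V ⊕ W) = _
    rw [Fintype.card_sum, h2, k2]
    omega
  · have h4 := fp_dj (G := G) (H := H)
    rw [h3, k3] at h4
    have h5 : gd r m = fun i => (fun i => (-1) * ((fun i => (-4) ^ i * (r.choose i : ℤ)) i)) i +
      (fun i => (if i = 1 then (m : ℤ) - 4 else 0) + (if i = 0 then 2 else 0)) i := rfl
    rw [h5, Phi_add, Phi_smul, Phi_one_pow, Phi_add]
    have h6 : Phi (2 * r) (fun i => if i = 1 then (m : ℤ) - 4 else 0) =
        ((m : Polynomial ℤ) - 4) * (Polynomial.X + Polynomial.X ^ 2) *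
        (1 + 2 * Polynomial.X) ^ (2 * (r - 1)) := by
      unfold Phi
      rw [Finset.sum_eq_single 1]
      · show Polynomial.C (if (1 : ℕ) = 1 then (m : ℤ) - 4 else 0) * _ * _ = _
        rw [if_pos rfl, pow_one]
        have h7 : (Polynomial.C ((m : ℤ) - 4) : Polynomial ℤ) = (m : Polynomial ℤ) - 4 := by
          rw [Polynomial.C_sub]
          congr 1
        rw [h7]
        congr 2
        omega
      · intro i _ hi
        show Polynomial.C (if i = 1 then (m : ℤ) - 4 else 0) * _ * _ = 0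
        rw [if_neg hi, Polynomial.C_0, zero_mul, zero_mul]
      · intro h
        exfalso
        apply h
        rw [Finset.mem_range]
        omega
    have h8 : Phi (2 * r) (fun i => if i = 0 then (2 : ℤ) else 0) = 2 * (1 + 2 * Polynomial.X) ^ (2 * r) := by
      unfold Phi
      rw [Finset.sum_eq_single 0]
      · show Polynomial.C (if (0 : ℕ) = 0 then (2 : ℤ) else 0) * _ * _ = _
        rw [if_pos rfl, pow_zero, mul_one]
        rfl
      · intro i _ hi
        show Polynomial.C (if i = 0 then (2 : ℤ) else 0) * _ * _ = 0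
        rw [if_neg hi, Polynomial.C_0, zero_mul, zero_mul]
      · intro h
        exfalso
        apply h
        rw [Finset.mem_range]
        omega
    rw [h6, h8]
    have h9 : 2 * (r - 1) + 2 = 2 * r := by omega
    rw [h9] at h4
    have h10 : (Polynomial.C (-1) : Polynomial ℤ) = -1 := by
      rw [Polynomial.C_neg, Polynomial.C_1]
    rw [h10]
    have h11 : ((4 : ℕ) : Polynomial ℤ) - 4 = 0 := by
      push_cast
      ring
    rw [h11] at h4
    linear_combination h4

end Pool.Agent.N428.FM
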