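import Pool.Agent.N428.FM.Link

/-!
# The face polynomial and the gamma-vector of the circular complex
-/

set_option autoImplicit false
set_option linter.unusedSectionVars false

namespace Pool.Agent.N428.FM

open Finset Module Pool.Agent.W907.SG Pool.Agent.R580.CD

section

variable {M N : ℕ} (hM : 3 * N + 1 ≤ M)

include hM in
theorem fp_nbr {q : ℕ} (hq : N = q + 1) (v : Fin M ×ₗ Bool) :
    fp (rg M N) ((rg M N).neighborSet v) = Qs q := by
  set a := (ofLex v).1
  set s := (ofLex v).2
  have hv : P a (0, s) = v := P_self hM v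
  have h0 : ((0 : ℤ), s) ∈ W N := ⟨by simp, by simp⟩
  have h1 : (rg M N).neighborSet v = P a '' (Ss N ((0 : ℕ) : ℤ) s s) := by
    rw [← hv]
    ext z
    constructor
    · intro hz
      obtain ⟨y, hy, rfl⟩ := surj hM a hz
      refine ⟨y, ?_, rfl⟩
      have h2 := (adj_iff hM a h0 hy).mp hz
      obtain ⟨k, r⟩ := y
      obtain ⟨h3, h4, h5, h6⟩ := h2
      obtain ⟨h7, h8⟩ := hy
      simp only at h3 h4 h5 h6 h7 h8
      by_cases c1 : k = N
      · left
        rw [c1, ← h6 (Or.inr (by omega))]
      · right
        by_cases c2 : k < 0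
        · left
          refine ⟨by simp only; omega, by simp only; omega, ?_⟩
          intro h9
          simp only at h9
          exact (h6 (Or.inl (by omega))).symm
        · right
          constructor <;> simp only <;> omega
    · rintro ⟨⟨k, r⟩, (h | h | h), rfl⟩
      · rw [Prod.mk.injEq] at h
        obtain ⟨rfl, rfl⟩ := h
        refine (adj_iff hM a h0 ⟨by simp only; omega, by simp only; omega⟩).mpr ?_
        exact ⟨by simp only; omega, by simp only; omega, by simp only; omega, fun _ => rfl⟩
      · obtain ⟨h2, h3, h4⟩ := h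
        simp only at h2 h3 h4
        refine (adj_iff hM a h0 ⟨by simp only; omega, by simp only; omega⟩).mpr ?_
        refine ⟨by simp only; omega, by simp only; omega, by simp only; omega, fun h5 => ?_⟩
        simp only at h5
        exact (h4 (by omega)).symm
      · obtain ⟨h2, h3⟩ := h
        simp only at h2 h3
        refine (adj_iff hM a h0 ⟨by simp only; omega, by simp only; omega⟩).mpr ?_
        refine ⟨by simp only; omega, by simp only; omega, by simp only; omega, fun h5 => ?_⟩
        simp only at h5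
        omega
  rw [h1]
  exact (SP_Ss hM a 0 q (by omega) s s).2

include hM in
/-- the face polynomial of the circular complex -/
theorem fp_rg {q : ℕ} (hq : N = q + 1) : fp (rg M N) Set.univ =
    1 + ((2 * M : ℕ) : Polynomial ℤ) * ((Polynomial.X + Polynomial.X ^ 2) * (1 + 2 * Polynomial.X) ^ q) := by
  have h1 : Polynomial.derivative (fp (rg M N) Set.univ) = ((2 * M : ℕ) : Polynomial ℤ) * Qs q := by
    rw [fp_deriv, Finset.sum_congr rfl fun v _ => fp_nbr hM hq v, Finset.sum_const, nsmul_eq_mul]
    congr 2
    rw [Finset.card_univ]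
    have : Fintype.card (Fin M ×ₗ Bool) = M * 2 := by
      rw [show Fintype.card (Fin M ×ₗ Bool) = Fintype.card (Fin M × Bool) from rfl, Fintype.card_prod]
      simp
    rw [this, mul_comm]
  have h2 : Polynomial.derivative (1 + ((2 * M : ℕ) : Polynomial ℤ) * ((Polynomial.X + Polynomial.X ^ 2) *
      (1 + 2 * Polynomial.X) ^ q) : Polynomial ℤ) = ((2 * M : ℕ) : Polynomial ℤ) * Qs q := by
    unfold Qs
    have h3 : Polynomial.derivative ((2 * M : ℕ) : Polynomial ℤ) = 0 := Polynomial.derivative_natCast
    rcases q with _ | q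
    · simp only [pow_zero, mul_one, Polynomial.derivative_add, Polynomial.derivative_mul,
        Polynomial.derivative_one, Polynomial.derivative_X, Polynomial.derivative_pow, h3,
        Nat.cast_zero, zero_mul, add_zero, zero_add]
      push_cast
      simp only [Polynomial.C_ofNat]
      ring
    · simp only [Polynomial.derivative_add, Polynomial.derivative_mul, Polynomial.derivative_one,
        Polynomial.derivative_X, Polynomial.derivative_pow, h3, Nat.add_sub_cancel]
      have h4 : Polynomial.derivative (2 : Polynomial ℤ) = 0 := by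
        rw [show (2 : Polynomial ℤ) = ((2 : ℕ) : Polynomial ℤ) by norm_num]
        exact Polynomial.derivative_natCast
      rw [h4]
      push_cast
      simp only [map_add, map_natCast, map_one, Polynomial.C_ofNat]
      ring
  set p : Polynomial ℤ := fp (rg M N) Set.univ - (1 + ((2 * M : ℕ) : Polynomial ℤ) * ((Polynomial.X + Polynomial.X ^ 2) *
      (1 + 2 * Polynomial.X) ^ q)) with hp
  have h3 : Polynomial.derivative p = 0 := by
    rw [hp, Polynomial.derivative_sub, h1, h2, sub_self]
  have h4 := Polynomial.derivative_eq_zero.mp h3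
  have h5 := Polynomial.eq_C_of_natDegree_eq_zero h4
  have h6 : p.eval 0 = 0 := by
    rw [hp, Polynomial.eval_sub, fp_eval_zero]
    simp
  have h7 : p.coeff 0 = 0 := by
    rw [← h6, Polynomial.coeff_zero_eq_eval_zero]
  rw [h7, Polynomial.C_0] at h5
  exact sub_eq_zero.mp h5

/-- the part of the gamma-vector which comes from the empty face -/
theorem Phi_one_pow (r : ℕ) : Phi (2 * r) (fun i => (-4) ^ i * (r.choose i : ℤ)) = 1 := by
  unfold Phi
  have h1 : 2 * r / 2 = r := by omega
  rw [h1]
  have h2 : ((-4) * ((Polynomial.X : Polynomial ℤ) + Polynomial.X ^ 2) + (1 + 2 * Polynomial.X) ^ 2) ^ r = 1 := by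
    have : ((-4) * ((Polynomial.X : Polynomial ℤ) + Polynomial.X ^ 2) + (1 + 2 * Polynomial.X) ^ 2) = 1 := by ring
    rw [this, one_pow]
  rw [add_pow] at h2
  refine Eq.trans (Finset.sum_congr rfl fun i hi => ?_) h2
  rw [Finset.mem_range] at hi
  have h3 : (1 + 2 * (Polynomial.X : Polynomial ℤ)) ^ (2 * r - 2 * i) = ((1 + 2 * Polynomial.X) ^ 2) ^ (r - i) := by
    rw [← pow_mul]
    congr 1
    omega
  rw [h3, mul_pow, map_mul, map_pow]
  have h4 : (Polynomial.C (-4) : Polynomial ℤ) = -4 := by
    rw [Polynomial.C_neg]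
    rfl
  rw [h4]
  have h5 : (Polynomial.C ((r.choose i : ℕ) : ℤ) : Polynomial ℤ) = ((r.choose i : ℕ) : Polynomial ℤ) := by
    simp
  rw [h5]
  ring

/-- the gamma-vector of the circular complex -/
def gr (r M i : ℕ) : ℤ := (-4) ^ i * (r.choose i : ℤ) + (if i = 1 then ((2 * M : ℕ) : ℤ) else 0)

theorem fp_rg_gam {r M : ℕ} (hr : 1 ≤ r) (hM : 3 * (2 * r - 1) + 1 ≤ M) :
    IsGam (2 * r) (fp (rg M (2 * r - 1)) Set.univ) (gr r M) := by
  constructor
  · rw [fp_rg hM (q := 2 * r - 2) (by omega)]
    have h1 : gr r M = fun i => (-4) ^ i * (r.choose i : ℤ) + (if i = 1 then ((2 * M : ℕ) : ℤ) else 0) := rfl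
    rw [h1, Phi_add, Phi_one_pow]
    congr 1
    unfold Phi
    rw [Finset.sum_eq_single 1]
    · show _ = Polynomial.C (if (1 : ℕ) = 1 then ((2 * M : ℕ) : ℤ) else 0) * _ * _
      rw [if_pos rfl, pow_one, mul_one, mul_assoc]
      congr 1
    · intro i _ hi
      show Polynomial.C (if i = 1 then ((2 * M : ℕ) : ℤ) else 0) * _ * _ = 0
      rw [if_neg hi, Polynomial.C_0, zero_mul, zero_mul]
    · intro h
      exfalso
      apply h
      rw [Finset.mem_range]
      omega
  · intro i hi
    have h2 : 2 * r / 2 = r := by omega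
    rw [h2] at hi
    unfold gr
    rw [Nat.choose_eq_zero_of_lt hi, if_neg (by omega)]
    simp

end

end Pool.Agent.N428.FM
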