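import Pool.Agent.R580.CD.GAmp

/-!
# Adding a vertex to a flag complex: homology and face polynomial
-/

set_option autoImplicit false
set_option linter.unusedSectionVars false

namespace Pool.Agent.N428.FM

open Finset Module Pool.Agent.W907.SG Pool.Agent.R580.CD

section
variable {V : Type} [Fintype V] [LinearOrder V] {F : Type} [Field F] {G : SimpleGraph V}

/-- the cliques in `A` form an acyclic complex -/
def Ac (F : Type) [Field F] (G : SimpleGraph V) (A : Set V) : Prop := ∀ i, Zy F G A i ≤ By F G A i

/-- the cliques in `A` form a complex with the homology of the sphere of dimension `n - 1` -/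
def Sp (F : Type) [Field F] (G : SimpleGraph V) (A : Set V) (n : ℕ) : Prop :=
  ∀ i, betti F G A i = if i = n then 1 else 0

theorem ac_cone {A : Set V} {v : V} (hv : v ∈ A) (h : ∀ u ∈ A, u ≠ v → G.Adj v u) : Ac F G A :=
  fun i => cone hv h i

theorem sp_empty : Sp F G ∅ 0 := by
  classical
  intro i
  have h0 : ∀ i, CC F G ∅ (i + 1) = ⊥ := by
    intro i
    rw [eq_bot_iff]
    intro c hc
    rw [Submodule.mem_bot]
    funext T
    refine hc T ?_
    rintro ⟨_, h2, h3⟩
    rw [Set.subset_empty_iff, Finset.coe_eq_empty] at h2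
    rw [h2, Finset.card_empty] at h3
    omega
  have hB : ∀ i, finrank F (By F G ∅ i) = 0 := by
    intro i
    unfold By
    rw [h0, Submodule.map_bot, finrank_bot]
  unfold betti
  rw [hB, Nat.sub_zero]
  rcases i with _ | i
  · rw [if_pos rfl, ← finrank_zero]
    rw [finrank_eq_one_iff']
    refine ⟨⟨fun T => if T = ∅ then 1 else 0, ?_⟩, ?_, ?_⟩
    · intro T hT
      show (if T = ∅ then (1 : F) else 0) = 0
      rw [if_neg]
      rintro rfl
      exact hT (by simp)
    · intro h
      have := congrFun (congrArg Subtype.val h) ∅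
      simp at this
    · rintro ⟨c, hc⟩
      refine ⟨c ∅, ?_⟩
      apply Subtype.ext
      funext T
      show c ∅ * (if T = ∅ then 1 else 0) = c T
      by_cases hT : T = ∅
      · rw [if_pos hT, hT, mul_one]
      · rw [if_neg hT, mul_zero]
        symm
        refine hc T ?_
        rintro ⟨_, h2, _⟩
        rw [Set.subset_empty_iff, Finset.coe_eq_empty] at h2
        exact hT h2
  · rw [if_neg (by omega)]
    have : Zy F G ∅ (i + 1) = ⊥ := by
      rw [eq_bot_iff, ← h0 i]
      exact inf_le_left
    rw [this, finrank_bot]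

theorem union_add {A : Set V} {v : V} (hv : v ∉ A) (hA : Ac F G A) :
    betti F G (insert v A) 0 = 0 ∧ ∀ i, betti F G (insert v A) (i + 1) = betti F G (A ∩ G.neighborSet v) i := by
  have h1 := union (F := F) (G := G) (A := A) (B := insert v (A ∩ G.neighborSet v)) (by
    intro a ha haB b hb hbA hab
    rcases hb with rfl | hb
    · exact haB (Or.inr ⟨ha, hab.symm⟩)
    · exact hbA hb.1) hA (fun i => cone (v := v) (Set.mem_insert _ _) (by
      rintro u (rfl | hu) huv
      · exact absurd rfl huv
      · exact hu.2) i)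
  have h2 : A ∪ insert v (A ∩ G.neighborSet v) = insert v A := by
    ext x
    simp only [Set.mem_union, Set.mem_insert_iff, Set.mem_inter_iff]
    tauto
  have h3 : A ∩ insert v (A ∩ G.neighborSet v) = A ∩ G.neighborSet v := by
    ext x
    simp only [Set.mem_insert_iff, Set.mem_inter_iff]
    constructor
    · rintro ⟨h4, rfl | h5⟩
      · exact absurd h4 hv
      · exact h5
    · intro h4
      exact ⟨h4.1, Or.inr h4⟩
  rw [h2, h3] at h1
  exact h1

theorem ac_iff {A : Set V} : Ac F G A ↔ ∀ i, betti F G A i = 0 := by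
  unfold Ac
  exact forall_congr' fun i => betti_eq_zero.symm

theorem ac_add {A : Set V} {v : V} (hv : v ∉ A) (hA : Ac F G A) (hL : Ac F G (A ∩ G.neighborSet v)) :
    Ac F G (insert v A) := by
  rw [ac_iff] at hL ⊢
  have h := union_add hv hA
  rintro (_ | i)
  · exact h.1
  · rw [h.2, hL]

theorem sp_cap {A : Set V} {v : V} {n : ℕ} (hv : v ∉ A) (hA : Ac F G A)
    (hL : Sp F G (A ∩ G.neighborSet v) n) : Sp F G (insert v A) (n + 1) := by
  have h := union_add hv hA
  rintro (_ | i)
  · rw [h.1, if_neg (by omega)]
  · rw [h.2, hL]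
    have : (i = n) ↔ (i + 1 = n + 1) := by omega
    simp only [this]

theorem fp_empty : fp G (∅ : Set V) = 1 := by
  classical
  unfold fp
  rw [Finset.sum_eq_single ∅]
  · rw [if_pos (by simp)]
    simp
  · intro T _ hT
    rw [if_neg]
    rintro ⟨_, h⟩
    rw [Set.subset_empty_iff, Finset.coe_eq_empty] at h
    exact hT h
  · intro h
    exact absurd (mem_univ _) h

end

end Pool.Agent.N428.FM
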