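import Pool.Agent.N428.FM.Shape

/-!
# The links of all nonempty cliques are homology spheres
-/

set_option autoImplicit false
set_option linter.unusedSectionVars false

namespace Pool.Agent.N428.FM

open Finset Module Pool.Agent.W907.SG Pool.Agent.R580.CD

section

variable {M N : ℕ} (hM : 3 * N + 1 ≤ M)

include hM in
/-- composition of charts -/
theorem P_comp (b : Fin M) {k l : ℤ} (h1 : -(N : ℤ) ≤ k) (h2 : k ≤ 0) (h3 : 0 ≤ l) (h4 : l ≤ N)
    (s r : Bool) : P (ofLex (P b (k, r))).1 (l, s) = P b (k + l, s) := by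
  have hb := b.isLt
  have e1 : (ofLex (P b (k, r))).1.val = pv M b.val k := P_val hM b (x := (k, r)) ⟨h1, by simp only; omega⟩
  apply ofLex.injective
  refine Prod.ext (Fin.ext ?_) rfl
  rw [P_val hM _ (x := (l, s)) ⟨by simp only; omega, h4⟩, P_val hM _ (x := (k + l, s))
    ⟨by simp only; omega, by simp only; omega⟩, e1]
  simp only
  unfold pv
  split_ifs <;> omega

include hM in
theorem P_self (u : Fin M ×ₗ Bool) : P (ofLex u).1 (0, (ofLex u).2) = u := by
  have hb := (ofLex u).1.isLt
  apply ofLex.injective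
  refine Prod.ext (Fin.ext ?_) rfl
  rw [P_val hM _ (x := (0, (ofLex u).2)) ⟨by simp only; omega, by simp only; omega⟩]
  simp only
  unfold pv
  split_ifs <;> omega

include hM in
/-- every nonempty clique has a first vertex -/
theorem exists_first {T : Finset (Fin M ×ₗ Bool)} (hT : (rg M N).IsClique (T : Set (Fin M ×ₗ Bool)))
    (hne : T.Nonempty) : ∃ (a : Fin M) (s : Bool), P a (0, s) ∈ T ∧
    ∀ u ∈ T, ∃ (k : ℤ) (r : Bool), 0 ≤ k ∧ k ≤ N ∧ u = P a (k, r) := by
  classical
  obtain ⟨u0, hu0⟩ := hne
  set b := (ofLex u0).1 with hb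
  set s0 := (ofLex u0).2 with hs0
  have e0 : P b (0, s0) = u0 := P_self hM u0
  have hall : ∀ u ∈ T, ∃ x ∈ W N, u = P b x := by
    intro u hu
    by_cases h : u = u0
    · exact ⟨(0, s0), ⟨by simp, by simp⟩, by rw [h, e0]⟩
    · have h1 : (rg M N).Adj u0 u := hT hu0 hu (Ne.symm h)
      rw [← e0] at h1
      exact surj hM b h1
  set K : Finset ℤ := (Finset.Icc (-(N : ℤ)) N).filter (fun k => ∃ r, P b (k, r) ∈ T) with hK
  have h0K : (0 : ℤ) ∈ K := by
    rw [hK, mem_filter, Finset.mem_Icc]
    exact ⟨⟨by omega, by omega⟩, s0, by rw [e0]; exact hu0⟩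
  have hmin := K.min'_mem ⟨0, h0K⟩
  have hle := K.min'_le 0 h0K
  have hle2 : ∀ k ∈ K, K.min' ⟨0, h0K⟩ ≤ k := fun k hk => K.min'_le k hk
  set k0 := K.min' ⟨0, h0K⟩ with hk0
  rw [hK, mem_filter, Finset.mem_Icc] at hmin
  obtain ⟨⟨h1, h2⟩, r0, h3⟩ := hmin
  refine ⟨(ofLex (P b (k0, r0))).1, r0, ?_, ?_⟩
  · rw [P_comp hM b h1 hle le_rfl (by omega), add_zero]
    exact h3
  · intro u hu
    obtain ⟨x, hx, hxu⟩ := hall u hu
    have hxK : x.1 ∈ K := by
      rw [hK, mem_filter, Finset.mem_Icc]
      exact ⟨hx, x.2, by rw [← hxu]; exact hu⟩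
    have h4 := hle2 _ hxK
    have h5 : x.1 - k0 ≤ N := by
      by_cases h6 : x = (k0, r0)
      · rw [h6]
        simp
      · have h7 : P b (k0, r0) ≠ P b x := by
          intro h8
          exact h6 (P_inj hM b (x := (k0, r0)) ⟨h1, h2⟩ hx h8).symm
        have h8 := hT h3 (by rw [hxu] at hu; exact hu) h7
        have h9 := (adj_iff hM b (x := (k0, r0)) ⟨h1, h2⟩ hx).mp h8
        exact h9.2.2.1
    refine ⟨x.1 - k0, x.2, by omega, h5, ?_⟩
    rw [P_comp hM b h1 hle (by omega) h5, hxu]
    congr 1
    refine Prod.ext ?_ rfl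
    show x.1 = k0 + (x.1 - k0)
    ring

include hM in
/-- the links of the nonempty cliques -/
theorem link_sphere {T : Finset (Fin M ×ₗ Bool)} (hT : (rg M N).IsClique (T : Set (Fin M ×ₗ Bool)))
    (hne : T.Nonempty) (F : Type) [Field F] (i : ℕ) :
    betti F (rg M N) (lnk (rg M N) T) i = if i + T.card = N + 1 then 1 else 0 := by
  classical
  obtain ⟨a, s, hs, hall⟩ := exists_first hM hT hne
  set T' : Finset (ℤ × Bool) := ((Finset.Icc (0 : ℤ) N) ×ˢ (Finset.univ : Finset Bool)).filter
    (fun x => P a x ∈ T) with hT'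
  have hmem : ∀ x : ℤ × Bool, x ∈ T' ↔ (0 ≤ x.1 ∧ x.1 ≤ N) ∧ P a x ∈ T := by
    intro x
    rw [hT', mem_filter, Finset.mem_product, Finset.mem_Icc]
    simp
  have hW : ∀ x ∈ T', x ∈ W N := by
    intro x hx
    obtain ⟨⟨h1, h2⟩, _⟩ := (hmem x).mp hx
    exact ⟨by omega, h2⟩
  have himg : T = T'.image (P a) := by
    ext u
    rw [mem_image]
    constructor
    · intro hu
      obtain ⟨k, r, h1, h2, h3⟩ := hall u hu
      exact ⟨(k, r), (hmem _).mpr ⟨⟨h1, h2⟩, by rw [← h3]; exact hu⟩, h3.symm⟩
    · rintro ⟨x, hx, rfl⟩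
      exact ((hmem x).mp hx).2
  have hcard : T.card = T'.card := by
    rw [himg]
    refine Finset.card_image_of_injOn ?_
    intro x hx y hy hxy
    exact P_inj hM a (hW x hx) (hW y hy) hxy
  have hE : ∀ x ∈ T', ∀ y ∈ T', x ≠ y → E N x y := by
    intro x hx y hy hxy
    refine (adj_iff hM a (hW x hx) (hW y hy)).mp ?_
    exact hT ((hmem x).mp hx).2 ((hmem y).mp hy).2 fun h => hxy (P_inj hM a (hW x hx) (hW y hy) h)
  have huni : ∀ x ∈ T', ∀ y ∈ T', x.1 = y.1 → x = y := by
    intro x hx y hy hxy
    by_contra h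
    exact (hE x hx y hy h).1 hxy
  set pos : Finset ℤ := T'.image Prod.fst with hpos
  have hcpos : pos.card = T'.card := by
    rw [hpos]
    exact Finset.card_image_of_injOn fun x hx y hy hxy => huni x hx y hy hxy
  have h0T : ((0 : ℤ), s) ∈ T' := (hmem _).mpr ⟨⟨le_rfl, by simp⟩, hs⟩
  have h0 : (0 : ℤ) ∈ pos := by
    rw [hpos, mem_image]
    exact ⟨_, h0T, rfl⟩
  obtain ⟨δ', hδpos, hle⟩ : ∃ δ' ∈ pos, ∀ k ∈ pos, k ≤ δ' :=
    ⟨pos.max' ⟨0, h0⟩, pos.max'_mem ⟨0, h0⟩, fun k hk => pos.le_max' k hk⟩
  obtain ⟨t, htT⟩ : ∃ t, (δ', t) ∈ T' := by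
    have hmax := hδpos
    rw [hpos, mem_image] at hmax
    obtain ⟨⟨δ'', t⟩, htT, hδ'⟩ := hmax
    simp only at hδ'
    exact ⟨t, by rw [← hδ']; exact htT⟩
  obtain ⟨⟨hd0, hdN⟩, _⟩ := (hmem _).mp htT
  simp only at hd0 hdN
  set I : Finset ℤ := Finset.Icc 0 δ' \ pos with hI
  have hposb : ∀ k ∈ pos, 0 ≤ k ∧ k ≤ δ' := by
    intro k hk
    refine ⟨?_, hle k hk⟩
    rw [hpos, mem_image] at hk
    obtain ⟨x, hx, rfl⟩ := hk
    exact ((hmem x).mp hx).1.1
  have hcI : I.card + pos.card = (δ' + 1).toNat := by
    rw [hI, Finset.card_sdiff_add_card_eq_card]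
    · rw [Int.card_Icc]
      congr 1
      ring
    · intro k hk
      rw [Finset.mem_Icc]
      exact hposb k hk
  have hIb : ∀ k ∈ I, 0 < k ∧ k < δ' ∧ k ∉ pos := by
    intro k hk
    rw [hI, mem_sdiff, Finset.mem_Icc] at hk
    obtain ⟨⟨h1, h2⟩, h3⟩ := hk
    have h4 : k ≠ 0 := by
      rintro rfl
      exact h3 h0
    have h5 : k ≠ δ' := by
      rintro rfl
      exact h3 hδpos
    exact ⟨by omega, by omega, h3⟩
  have hlnk : lnk (rg M N) T = P a '' {y ∈ W N | ∀ x ∈ T', E N y x} := by
    ext z
    constructor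
    · intro hz
      obtain ⟨y, hy, rfl⟩ := surj hM a (hz _ hs).symm
      refine ⟨y, ⟨hy, fun x hx => ?_⟩, rfl⟩
      exact (adj_iff hM a hy (hW x hx)).mp (hz _ ((hmem x).mp hx).2)
    · rintro ⟨y, ⟨hy, h⟩, rfl⟩ u hu
      rw [himg, mem_image] at hu
      obtain ⟨x, hx, rfl⟩ := hu
      exact (adj_iff hM a hy (hW x hx)).mpr (h x hx)
  have hposmem : ∀ x ∈ T', x.1 ∈ pos := fun x hx => mem_image_of_mem _ hx
  rcases lt_or_eq_of_le hdN with hlt | heq
  · -- the general case
    obtain ⟨d, rfl⟩ : ∃ d : ℕ, δ' = (d : ℤ) := ⟨δ'.toNat, by omega⟩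
    obtain ⟨q, hq⟩ : ∃ q : ℕ, N = d + q + 1 := ⟨N - d - 1, by omega⟩
    have hset : {y ∈ W N | ∀ x ∈ T', E N y x} = U I ∪ Ss N d s t := by
      ext ⟨k, r⟩
      constructor
      · rintro ⟨⟨h1, h2⟩, h3⟩
        obtain ⟨e1, e2, e3, e4⟩ := h3 _ h0T
        obtain ⟨g1, g2, g3, g4⟩ := h3 _ htT
        simp only at h1 h2 e1 e2 e3 e4 g1 g2 g3 g4
        by_cases c1 : k < 0
        · right
          right
          left
          refine ⟨by simp only; omega, by simp only; omega, ?_⟩
          simp only
          intro h4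
          exact g4 (Or.inr (by omega))
        · by_cases c2 : k < d
          · left
            show k ∈ I
            rw [hI, mem_sdiff, Finset.mem_Icc]
            refine ⟨⟨by omega, by omega⟩, ?_⟩
            intro h4
            rw [hpos, mem_image] at h4
            obtain ⟨x, hx, hxk⟩ := h4
            exact (h3 x hx).1 hxk.symm
          · right
            by_cases c3 : k = N
            · left
              rw [c3, e4 (Or.inl (by omega))]
            · right
              right
              constructor <;> simp only <;> omega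
      · rintro (h | h | h | h)
        · have h1 : k ∈ I := h
          obtain ⟨h2, h3, h4⟩ := hIb k h1
          refine ⟨⟨by simp only; omega, by simp only; omega⟩, ?_⟩
          intro x hx
          have h5 := hposb _ (hposmem x hx)
          have h6 : k ≠ x.1 := by
            rintro rfl
            exact h4 (hposmem x hx)
          exact ⟨h6, by simp only; omega, by simp only; omega, fun h7 => by simp only at h7; omega⟩
        · rw [Prod.mk.injEq] at h
          obtain ⟨rfl, rfl⟩ := h
          refine ⟨⟨by simp only; omega, by simp only; omega⟩, ?_⟩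
          intro x hx
          have h5 := hposb _ (hposmem x hx)
          refine ⟨by simp only; omega, by simp only; omega, by simp only; omega, fun h7 => ?_⟩
          simp only at h7
          have h8 : x.1 = 0 := by omega
          rw [huni x hx _ h0T h8]
        · obtain ⟨h1, h2, h3⟩ := h
          simp only at h1 h2 h3
          refine ⟨⟨by simp only; omega, by simp only; omega⟩, ?_⟩
          intro x hx
          have h5 := hposb _ (hposmem x hx)
          refine ⟨by simp only; omega, by simp only; omega, by simp only; omega, fun h7 => ?_⟩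
          simp only at h7
          have h8 : x.1 = d := by omega
          rw [huni x hx _ htT h8]
          exact h3 (by omega)
        · obtain ⟨h1, h2⟩ := h
          simp only at h1 h2
          refine ⟨⟨by simp only; omega, by simp only; omega⟩, ?_⟩
          intro x hx
          have h5 := hposb _ (hposmem x hx)
          refine ⟨by simp only; omega, by simp only; omega, by simp only; omega, fun h7 => ?_⟩
          simp only at h7
          omega
    have hSs : Ss N (d : ℤ) s t ⊆ W N := by
      rintro ⟨k, r⟩ (h | h | h)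
      · rw [Prod.mk.injEq] at h
        exact ⟨by simp only; omega, by simp only; omega⟩
      · obtain ⟨h1, h2, h3⟩ := h
        simp only at h1 h2
        exact ⟨by simp only; omega, by simp only; omega⟩
      · obtain ⟨h1, h2⟩ := h
        simp only at h1 h2
        exact ⟨by simp only; omega, by simp only; omega⟩
    have h1 := SP_pairs hM a hSs (SP_Ss hM a d q hq s t) I (fun k hk => by
        have := hIb k hk
        omega) (by
        rintro k hk r ⟨l, r'⟩ hl
        have h5 := hIb k hk
        rcases hl with h | h | h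
        · rw [Prod.mk.injEq] at h
          exact ⟨by simp only; omega, by simp only; omega, by simp only; omega,
            fun h7 => by simp only at h7; omega⟩
        · obtain ⟨h1, h2, h3⟩ := h
          simp only at h1 h2
          exact ⟨by simp only; omega, by simp only; omega, by simp only; omega,
            fun h7 => by simp only at h7; omega⟩
        · obtain ⟨h1, h2⟩ := h
          simp only at h1 h2
          exact ⟨by simp only; omega, by simp only; omega, by simp only; omega,
            fun h7 => by simp only at h7; omega⟩) (fun k hk l hl => by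
        have := hIb k hk
        have := hIb l hl
        omega)
    rw [hlnk, hset, h1.1 F i]
    have h2 : (i = q + 1 + I.card) ↔ (i + T.card = N + 1) := by
      rw [hcard, ← hcpos]
      omega
    simp only [h2]
  · -- the case `δ = N`
    have hset : {y ∈ W N | ∀ x ∈ T', E N y x} = U I := by
      ext ⟨k, r⟩
      constructor
      · rintro ⟨⟨h1, h2⟩, h3⟩
        obtain ⟨e1, e2, e3, e4⟩ := h3 _ h0T
        obtain ⟨g1, g2, g3, g4⟩ := h3 _ htT
        simp only at h1 h2 e1 e2 e3 e4 g1 g2 g3 g4
        show k ∈ I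
        rw [hI, mem_sdiff, Finset.mem_Icc]
        refine ⟨⟨by omega, by omega⟩, ?_⟩
        intro h4
        rw [hpos, mem_image] at h4
        obtain ⟨x, hx, hxk⟩ := h4
        exact (h3 x hx).1 hxk.symm
      · intro h
        have h1 : k ∈ I := h
        obtain ⟨h2, h3, h4⟩ := hIb k h1
        refine ⟨⟨by simp only; omega, by simp only; omega⟩, ?_⟩
        intro x hx
        have h5 := hposb _ (hposmem x hx)
        have h6 : k ≠ x.1 := by
          rintro rfl
          exact h4 (hposmem x hx)
        exact ⟨h6, by simp only; omega, by simp only; omega, fun h7 => by simp only at h7; omega⟩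
    have h1 := SP_U hM a (I := I) (fun k hk => by
        have := hIb k hk
        omega) (fun k hk l hl => by
        have := hIb k hk
        have := hIb l hl
        omega)
    rw [hlnk, hset, h1.1 F i]
    have h2 : (i = I.card) ↔ (i + T.card = N + 1) := by
      rw [hcard, ← hcpos]
      omega
    simp only [h2]

end

end Pool.Agent.N428.FM
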