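import Pool.Agent.N428.FM.Gen

/-!
# The circular flag complex on `M` positions with two vertices at each position

`(a, s)` and `(b, t)` are adjacent if the circular distance of `a` and `b` is at least `1` and less than `N`, or
if it is `N` and `s = t`.
-/

set_option autoImplicit false
set_option linter.unusedSectionVars false

namespace Pool.Agent.N428.FM

open Finset Module Pool.Agent.W907.SG Pool.Agent.R580.CD

/-- adjacency -/
def radj (M N : ℕ) (a b : ℕ) (s t : Bool) : Prop :=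
  a ≠ b ∧ ((a ≤ b + N ∧ b ≤ a + N ∧ ((a = b + N ∨ b = a + N) → s = t)) ∨
    ((a + M ≤ b + N ∨ b + M ≤ a + N) ∧ ((a + M = b + N ∨ b + M = a + N) → s = t)))

theorem radj_symm {M N a b : ℕ} {s t : Bool} (h : radj M N a b s t) : radj M N b a t s := by
  unfold radj at h ⊢
  grind

/-- the circular graph -/
def rg (M N : ℕ) : SimpleGraph (Fin M ×ₗ Bool) where
  Adj p q := radj M N (ofLex p).1.val (ofLex q).1.val (ofLex p).2 (ofLex q).2
  symm := ⟨fun _ _ h => radj_symm h⟩
  loopless := ⟨fun _ h => h.1 rfl⟩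

/-- the position at distance `k` from `a` -/
def pv (M a : ℕ) (k : ℤ) : ℕ :=
  if (a : ℤ) + k < 0 then ((a : ℤ) + k + M).toNat else
    if (M : ℤ) ≤ (a : ℤ) + k then ((a : ℤ) + k - M).toNat else ((a : ℤ) + k).toNat

/-- the chart at `a` -/
def P {M : ℕ} (a : Fin M) (x : ℤ × Bool) : Fin M ×ₗ Bool :=
  toLex (⟨pv M a.val x.1 % M, Nat.mod_lt _ (Nat.lt_of_le_of_lt (Nat.zero_le _) a.isLt)⟩, x.2)

/-- adjacency in the chart -/
def E (N : ℕ) (x y : ℤ × Bool) : Prop :=
  x.1 ≠ y.1 ∧ x.1 - y.1 ≤ N ∧ y.1 - x.1 ≤ N ∧ ((x.1 - y.1 = N ∨ y.1 - x.1 = N) → x.2 = y.2)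

/-- the window of the chart -/
def W (N : ℕ) : Set (ℤ × Bool) := {x | -(N : ℤ) ≤ x.1 ∧ x.1 ≤ N}

section

variable {M N : ℕ} (hM : 3 * N + 1 ≤ M) (a : Fin M)

include hM in
theorem pv_lt {k : ℤ} (h1 : -(N : ℤ) ≤ k) (h2 : k ≤ N) : pv M a.val k < M := by
  have := a.isLt
  unfold pv
  split_ifs <;> omega

include hM in
theorem P_val {x : ℤ × Bool} (h : x ∈ W N) : (ofLex (P a x)).1.val = pv M a.val x.1 :=
  Nat.mod_eq_of_lt (pv_lt hM a h.1 h.2)

theorem P_snd (x : ℤ × Bool) : (ofLex (P a x)).2 = x.2 := rfl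

include hM in
theorem pv_inj {k l : ℤ} (h1 : -(N : ℤ) ≤ k) (h2 : k ≤ N) (h3 : -(N : ℤ) ≤ l) (h4 : l ≤ N)
    (h : pv M a.val k = pv M a.val l) : k = l := by
  have := a.isLt
  unfold pv at h
  split_ifs at h <;> omega

include hM in
theorem P_inj {x y : ℤ × Bool} (hx : x ∈ W N) (hy : y ∈ W N) (h : P a x = P a y) : x = y := by
  have h1 : pv M a.val x.1 = pv M a.val y.1 := by
    rw [← P_val hM a hx, ← P_val hM a hy, h]
  have h2 : x.2 = y.2 := by
    rw [← P_snd a x, ← P_snd a y, h]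
  exact Prod.ext (pv_inj hM a hx.1 hx.2 hy.1 hy.2 h1) h2

include hM in
theorem adj_iff {x y : ℤ × Bool} (hx : x ∈ W N) (hy : y ∈ W N) :
    (rg M N).Adj (P a x) (P a y) ↔ E N x y := by
  show radj M N _ _ _ _ ↔ _
  rw [P_val hM a hx, P_val hM a hy, P_snd, P_snd]
  have ha := a.isLt
  obtain ⟨k, s⟩ := x
  obtain ⟨l, t⟩ := y
  obtain ⟨h1, h2⟩ := hx
  obtain ⟨h3, h4⟩ := hy
  unfold radj E pv
  simp only at h1 h2 h3 h4 ⊢
  by_cases hst : s = t
  · simp only [hst, implies_true, and_true]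
    split_ifs <;> omega
  · simp only [hst, imp_false]
    split_ifs <;> omega

include hM in
/-- the neighbours of a vertex at `a` are in the chart -/
theorem surj {s : Bool} {y : Fin M ×ₗ Bool} (h : (rg M N).Adj (P a (0, s)) y) :
    ∃ x ∈ W N, y = P a x := by
  have h0 : ((0 : ℤ), s) ∈ W N := ⟨by simp, by simp⟩
  have h1 : radj M N _ _ _ _ := h
  rw [P_val hM a h0, P_snd] at h1
  have ha := a.isLt
  have hb := (ofLex y).1.isLt
  set b := (ofLex y).1.val with hbdef
  have hk : ∃ k : ℤ, -(N : ℤ) ≤ k ∧ k ≤ N ∧ pv M a.val k = b := by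
    unfold radj at h1
    have h2 : pv M a.val 0 = a.val := by
      unfold pv
      split_ifs <;> omega
    simp only [h2] at h1
    by_cases c1 : a.val + M ≤ b + N
    · refine ⟨(b : ℤ) - a.val - M, by omega, by omega, ?_⟩
      unfold pv
      split_ifs <;> omega
    · by_cases c2 : b + M ≤ a.val + N
      · refine ⟨(b : ℤ) - a.val + M, by omega, by omega, ?_⟩
        unfold pv
        split_ifs <;> omega
      · refine ⟨(b : ℤ) - a.val, by omega, by omega, ?_⟩
        unfold pv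
        split_ifs <;> omega
  obtain ⟨k, h2, h3, h4⟩ := hk
  refine ⟨(k, (ofLex y).2), ⟨h2, h3⟩, ?_⟩
  have h5 : ((k, (ofLex y).2) : ℤ × Bool) ∈ W N := ⟨h2, h3⟩
  apply ofLex.injective
  refine Prod.ext (Fin.ext ?_) ?_
  · rw [P_val hM a h5]
    exact h4.symm
  · rw [P_snd]

include hM in
theorem img_inter {S : Set (ℤ × Bool)} (hS : S ⊆ W N) {x : ℤ × Bool} (hx : x ∈ W N) :
    (P a '' S) ∩ (rg M N).neighborSet (P a x) = P a '' {y ∈ S | E N x y} := by
  ext z
  constructor
  · rintro ⟨⟨y, hy, rfl⟩, h⟩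
    exact ⟨y, ⟨hy, (adj_iff hM a hx (hS hy)).mp h⟩, rfl⟩
  · rintro ⟨y, ⟨hy, h⟩, rfl⟩
    exact ⟨⟨y, hy, rfl⟩, (adj_iff hM a hx (hS hy)).mpr h⟩

include hM in
theorem img_notMem {S : Set (ℤ × Bool)} (hS : S ⊆ W N) {x : ℤ × Bool} (hx : x ∈ W N) (h : x ∉ S) :
    P a x ∉ P a '' S := by
  rintro ⟨y, hy, hxy⟩
  rw [P_inj hM a (hS hy) hx hxy] at hy
  exact h hy

/-- a sphere in the chart, with its face polynomial -/
def SP (N : ℕ) (a : Fin M) (S : Set (ℤ × Bool)) (n : ℕ) (Q : Polynomial ℤ) : Prop :=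
  (∀ (F : Type) [Field F], Sp F (rg M N) (P a '' S) n) ∧ fp (rg M N) (P a '' S) = Q

/-- an acyclic complex in the chart, with its face polynomial -/
def AC (N : ℕ) (a : Fin M) (S : Set (ℤ × Bool)) (Q : Polynomial ℤ) : Prop :=
  (∀ (F : Type) [Field F], Ac F (rg M N) (P a '' S)) ∧ fp (rg M N) (P a '' S) = Q

theorem SP_empty : SP N a ∅ 0 1 := by
  constructor
  · intro F _
    rw [Set.image_empty]
    exact sp_empty
  · rw [Set.image_empty]
    exact fp_empty

include hM in
theorem AC_cone {S : Set (ℤ × Bool)} (hS : S ⊆ W N) {x : ℤ × Bool} (hx : x ∈ W N) (h : x ∉ S)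
    (hE : ∀ y ∈ S, E N x y) {Q : Polynomial ℤ} (hQ : fp (rg M N) (P a '' S) = Q) :
    AC N a (insert x S) ((1 + Polynomial.X) * Q) := by
  have h1 : ∀ u ∈ P a '' S, (rg M N).Adj (P a x) u := by
    rintro _ ⟨y, hy, rfl⟩
    exact (adj_iff hM a hx (hS hy)).mpr (hE y hy)
  constructor
  · intro F _
    rw [Set.image_insert_eq]
    refine ac_cone (Set.mem_insert _ _) ?_
    rintro u (rfl | hu) huv
    · exact absurd rfl huv
    · exact h1 u hu
  · rw [Set.image_insert_eq, fp_cone (img_notMem hM a hS hx h) h1, hQ]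

include hM in
theorem AC_add {S : Set (ℤ × Bool)} (hS : S ⊆ W N) {x : ℤ × Bool} (hx : x ∈ W N) (h : x ∉ S)
    {Q R : Polynomial ℤ} (hA : AC N a S Q) (hL : AC N a {y ∈ S | E N x y} R) :
    AC N a (insert x S) (Q + Polynomial.X * R) := by
  constructor
  · intro F _
    rw [Set.image_insert_eq]
    refine ac_add (img_notMem hM a hS hx h) (hA.1 F) ?_
    rw [img_inter hM a hS hx]
    exact hL.1 F
  · rw [Set.image_insert_eq, fp_insert (img_notMem hM a hS hx h), img_inter hM a hS hx, hA.2, hL.2]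

include hM in
theorem SP_cap {S : Set (ℤ × Bool)} (hS : S ⊆ W N) {x : ℤ × Bool} (hx : x ∈ W N) (h : x ∉ S)
    {Q R : Polynomial ℤ} {n : ℕ} (hA : AC N a S Q) (hL : SP N a {y ∈ S | E N x y} n R) :
    SP N a (insert x S) (n + 1) (Q + Polynomial.X * R) := by
  constructor
  · intro F _
    rw [Set.image_insert_eq]
    refine sp_cap (img_notMem hM a hS hx h) (hA.1 F) ?_
    rw [img_inter hM a hS hx]
    exact hL.1 F
  · rw [Set.image_insert_eq, fp_insert (img_notMem hM a hS hx h), img_inter hM a hS hx, hA.2, hL.2]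

include hM in
theorem SP_pair {S : Set (ℤ × Bool)} (hS : S ⊆ W N) {k : ℤ} (hk : (k, true) ∈ W N)
    (hE : ∀ y ∈ S, E N (k, true) y) (hE' : ∀ y ∈ S, E N (k, false) y) {Q : Polynomial ℤ} {n : ℕ}
    (hA : SP N a S n Q) :
    SP N a (insert (k, true) (insert (k, false) S)) (n + 1) ((1 + 2 * Polynomial.X) * Q) := by
  have hk' : (k, false) ∈ W N := hk
  have h1 : (k, false) ∉ S := fun h => (hE' _ h).1 rfl
  have h2 : (k, true) ∉ S := fun h => (hE _ h).1 rfl
  have h3 := AC_cone hM a hS hk' h1 hE' hA.2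
  have h4 : {y ∈ insert ((k, false) : ℤ × Bool) S | E N (k, true) y} = S := by
    ext y
    constructor
    · rintro ⟨rfl | hy, h⟩
      · exact absurd rfl h.1
      · exact hy
    · intro hy
      exact ⟨Or.inr hy, hE y hy⟩
  have h5 := SP_cap hM a (x := (k, true)) (S := insert ((k, false) : ℤ × Bool) S) (n := n) (R := Q)
    (Set.insert_subset hk' hS) hk (by
      rintro (h | h)
      · simp at h
      · exact h2 h) h3 (by rw [h4]; exact hA)
  have h6 : (1 + 2 * Polynomial.X) * Q = (1 + Polynomial.X) * Q + Polynomial.X * Q := by ring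
  rw [h6]
  exact h5

/-- all the vertices at the positions in `I` -/
def U (I : Finset ℤ) : Set (ℤ × Bool) := {x | x.1 ∈ I}

include hM in
theorem SP_pairs {S : Set (ℤ × Bool)} (hS : S ⊆ W N) {Q : Polynomial ℤ} {n : ℕ} (hA : SP N a S n Q) :
    ∀ I : Finset ℤ, (∀ k ∈ I, -(N : ℤ) ≤ k ∧ k ≤ N) → (∀ k ∈ I, ∀ s, ∀ y ∈ S, E N (k, s) y) →
    (∀ k ∈ I, ∀ l ∈ I, k - l < N) →
    SP N a (U I ∪ S) (n + I.card) ((1 + 2 * Polynomial.X) ^ I.card * Q) := by
  intro I
  induction I using Finset.induction_on with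
  | empty =>
    intro _ _ _
    have : U ∅ ∪ S = S := by
      ext x
      simp [U]
    rw [this, card_empty, pow_zero, one_mul, add_zero]
    exact hA
  | insert k I hk ih =>
    intro h1 h2 h3
    have h4 := ih (fun l hl => h1 l (mem_insert_of_mem hl)) (fun l hl => h2 l (mem_insert_of_mem hl))
      (fun l hl m hm => h3 l (mem_insert_of_mem hl) m (mem_insert_of_mem hm))
    have hE : ∀ s, ∀ y ∈ U I ∪ S, E N (k, s) y := by
      rintro s ⟨l, t⟩ (hy | hy)
      · have hl : l ∈ I := hy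
        have h5 := h3 k (mem_insert_self _ _) l (mem_insert_of_mem hl)
        have h6 := h3 l (mem_insert_of_mem hl) k (mem_insert_self _ _)
        have h7 : k ≠ l := by
          rintro rfl
          exact hk hl
        unfold E
        refine ⟨h7, ?_, ?_, ?_⟩
        · show k - l ≤ N
          omega
        · show l - k ≤ N
          omega
        · show (k - l = N ∨ l - k = N) → _
          intro h8
          omega
      · exact h2 k (mem_insert_self _ _) s _ hy
    have hsub : U I ∪ S ⊆ W N := by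
      rintro x (hx | hx)
      · exact h1 x.1 (mem_insert_of_mem hx)
      · exact hS hx
    have h5 := SP_pair hM a hsub (k := k) (h1 k (mem_insert_self _ _)) (hE true) (hE false) h4
    have h6 : U (insert k I) ∪ S = insert ((k, true) : ℤ × Bool) (insert ((k, false) : ℤ × Bool) (U I ∪ S)) := by
      ext ⟨l, t⟩
      simp only [U, Set.mem_union, Set.mem_ofPred_eq, mem_insert, Set.mem_insert_iff, Prod.mk.injEq]
      cases t <;> simp <;> tauto
    rw [h6, card_insert_of_notMem hk, pow_succ, ← add_assoc]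
    have h7 : (1 + 2 * Polynomial.X) ^ I.card * (1 + 2 * Polynomial.X) * Q =
      (1 + 2 * Polynomial.X) * ((1 + 2 * Polynomial.X) ^ I.card * Q) := by ring
    rw [h7]
    exact h5

end

end Pool.Agent.N428.FM
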