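import Pool.Agent.N428.FM.Ring

/-!
# The links in the circular flag complex
-/

set_option autoImplicit false
set_option linter.unusedSectionVars false

namespace Pool.Agent.N428.FM

open Finset Module Pool.Agent.W907.SG Pool.Agent.R580.CD

/-- the left part, and the first `j` positions of the right part -/
def Aj (N : ℕ) (δ : ℤ) (t : Bool) (j : ℤ) : Set (ℤ × Bool) :=
  {x | (δ - N ≤ x.1 ∧ x.1 ≤ -1 ∧ (x.1 = δ - N → x.2 = t)) ∨ (δ + 1 ≤ x.1 ∧ x.1 ≤ δ + j)}

/-- the outer part of the link -/
def Ss (N : ℕ) (δ : ℤ) (s t : Bool) : Set (ℤ × Bool) :=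
  insert ((N : ℤ), s) (Aj N δ t (N - 1 - δ))

section

variable {M N : ℕ} (hM : 3 * N + 1 ≤ M) (a : Fin M)

include hM in
theorem SP_U {I : Finset ℤ} (h1 : ∀ k ∈ I, -(N : ℤ) ≤ k ∧ k ≤ N) (h2 : ∀ k ∈ I, ∀ l ∈ I, k - l < N) :
    SP N a (U I) I.card ((1 + 2 * Polynomial.X) ^ I.card) := by
  have h := SP_pairs hM a (S := ∅) (Set.empty_subset _) (SP_empty (N := N) a) I h1 (by simp) h2
  rw [Set.union_empty, zero_add, mul_one] at h
  exact h

theorem U_sub {I : Finset ℤ} (h1 : ∀ k ∈ I, -(N : ℤ) ≤ k ∧ k ≤ N) : U I ⊆ W N := fun x hx => h1 x.1 hx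

include hM in
/-- a vertex joined with pairs -/
theorem AC_U {I : Finset ℤ} (h1 : ∀ k ∈ I, -(N : ℤ) ≤ k ∧ k ≤ N) (h2 : ∀ k ∈ I, ∀ l ∈ I, k - l < N)
    {x : ℤ × Bool} (hx : x ∈ W N) (h : ∀ k ∈ I, k ≠ x.1 ∧ k - x.1 < N ∧ x.1 - k < N) :
    AC N a (insert x (U I)) ((1 + Polynomial.X) * (1 + 2 * Polynomial.X) ^ I.card) := by
  refine AC_cone hM a (U_sub h1) hx ?_ ?_ (SP_U hM a h1 h2).2
  · intro h3
    exact (h _ h3).1 rfl
  · intro y hy
    obtain ⟨h3, h4, h5⟩ := h _ hy
    exact ⟨h3.symm, by omega, by omega, fun h6 => by omega⟩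

include hM in
theorem AC_Aj (δ q : ℕ) (hN : N = δ + q + 1) (t : Bool) : ∀ j : ℕ, j ≤ q →
    AC N a (Aj N δ t j) ((1 + Polynomial.X) * (1 + 2 * Polynomial.X) ^ q +
      (j : Polynomial ℤ) * (2 * Polynomial.X * ((1 + Polynomial.X) * (1 + 2 * Polynomial.X) ^ (q - 1)))) := by
  intro j
  induction j with
  | zero =>
    intro _
    have h := AC_U hM a (I := Finset.Icc ((δ : ℤ) - N + 1) (-1)) (by
      intro k hk
      rw [Finset.mem_Icc] at hk
      omega) (by
      intro k hk l hl
      rw [Finset.mem_Icc] at hk hl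
      omega) (x := ((δ : ℤ) - N, t)) (by
      constructor <;> show _ ≤ _ <;> simp only <;> omega) (by
      intro k hk
      rw [Finset.mem_Icc] at hk
      simp only
      omega)
    have hc : (Finset.Icc ((δ : ℤ) - N + 1) (-1)).card = q := by
      rw [Int.card_Icc]
      omega
    rw [hc] at h
    have hs : insert ((δ : ℤ) - N, t) (U (Finset.Icc ((δ : ℤ) - N + 1) (-1))) = Aj N δ t (0 : ℕ) := by
      ext ⟨k, s⟩
      simp only [U, Aj, Set.mem_insert_iff, Set.mem_ofPred_eq, Finset.mem_Icc, Prod.mk.injEq]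
      constructor
      · rintro (⟨h1, h2⟩ | h1)
        · left
          refine ⟨by omega, by omega, fun _ => h2⟩
        · left
          refine ⟨by omega, by omega, fun h2 => by omega⟩
      · rintro (⟨h1, h2, h3⟩ | h1)
        · by_cases h4 : k = δ - N
          · exact Or.inl ⟨h4, h3 h4⟩
          · right
            omega
        · push_cast at h1
          omega
    rw [hs] at h
    have e : (1 + Polynomial.X) * (1 + 2 * Polynomial.X) ^ q +
      ((0 : ℕ) : Polynomial ℤ) * (2 * Polynomial.X * ((1 + Polynomial.X) * (1 + 2 * Polynomial.X) ^ (q - 1))) =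
      (1 + Polynomial.X) * (1 + 2 * Polynomial.X) ^ q := by
      rw [Nat.cast_zero, zero_mul, add_zero]
    rw [e]
    exact h
  | succ j ih =>
    intro hj
    have h0 := ih (by omega)
    have hsub : Aj N δ t (j : ℤ) ⊆ W N := by
      rintro ⟨k, s⟩ hk
      simp only [Aj, Set.mem_ofPred_eq] at hk
      constructor <;> show _ ≤ _ <;> simp only <;> omega
    set I : Finset ℤ := Finset.Icc ((δ : ℤ) + j + 2 - N) (-1) ∪ Finset.Icc ((δ : ℤ) + 1) (δ + j) with hI
    have hc : I.card = q - 1 := by
      rw [hI, Finset.card_union_of_disjoint, Int.card_Icc, Int.card_Icc]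
      · omega
      · rw [Finset.disjoint_left]
        intro x h1 h2
        rw [Finset.mem_Icc] at h1 h2
        omega
    have hlink : ∀ s : Bool, AC N a (insert ((δ : ℤ) + j + 1 - N, s) (U I))
        ((1 + Polynomial.X) * (1 + 2 * Polynomial.X) ^ (q - 1)) := by
      intro s
      have h := AC_U hM a (I := I) (by
        intro k hk
        rw [hI, mem_union, Finset.mem_Icc, Finset.mem_Icc] at hk
        omega) (by
        intro k hk l hl
        rw [hI, mem_union, Finset.mem_Icc, Finset.mem_Icc] at hk hl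
        omega) (x := ((δ : ℤ) + j + 1 - N, s)) (by
        constructor <;> show _ ≤ _ <;> simp only <;> omega) (by
        intro k hk
        rw [hI, mem_union, Finset.mem_Icc, Finset.mem_Icc] at hk
        simp only
        omega)
      rw [hc] at h
      exact h
    have hl1 : {y ∈ Aj N δ t (j : ℤ) | E N ((δ : ℤ) + j + 1, true) y} =
        insert ((δ : ℤ) + j + 1 - N, true) (U I) := by
      ext ⟨k, s⟩
      simp only [U, Aj, E, hI, Set.mem_insert_iff, Set.mem_ofPred_eq, Finset.mem_Icc, Prod.mk.injEq,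
        mem_union]
      constructor
      · rintro ⟨h1, h2, h3, h4, h5⟩
        by_cases h6 : k = (δ : ℤ) + j + 1 - N
        · left
          exact ⟨h6, (h5 (by omega)).symm⟩
        · right
          omega
      · rintro (⟨h1, h2⟩ | h1)
        · refine ⟨Or.inl ⟨by omega, by omega, fun _ => by omega⟩, by omega, by omega, by omega, fun _ => h2.symm⟩
        · rcases h1 with h1 | h1
          · refine ⟨Or.inl ⟨by omega, by omega, fun _ => by omega⟩, by omega, by omega, by omega, fun _ => by omega⟩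
          · refine ⟨Or.inr ⟨by omega, by omega⟩, by omega, by omega, by omega, fun _ => by omega⟩
    have hx1 : (((δ : ℤ) + j + 1, true) : ℤ × Bool) ∈ W N := by
      constructor <;> show _ ≤ _ <;> simp only <;> omega
    have hx2 : (((δ : ℤ) + j + 1, false) : ℤ × Bool) ∈ W N := hx1
    have hn1 : ∀ s, (((δ : ℤ) + j + 1, s) : ℤ × Bool) ∉ Aj N δ t (j : ℤ) := by
      intro s
      simp only [Aj, Set.mem_ofPred_eq]
      omega
    have h1 := AC_add hM a hsub hx1 (hn1 true) h0 (by rw [hl1]; exact hlink true)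
    have hl2 : {y ∈ insert (((δ : ℤ) + j + 1, true) : ℤ × Bool) (Aj N δ t (j : ℤ)) |
        E N ((δ : ℤ) + j + 1, false) y} =
        insert ((δ : ℤ) + j + 1 - N, false) (U I) := by
      ext ⟨k, s⟩
      simp only [U, Aj, E, hI, Set.mem_insert_iff, Set.mem_ofPred_eq, Finset.mem_Icc, Prod.mk.injEq,
        mem_union]
      constructor
      · rintro ⟨h1, h2, h3, h4, h5⟩
        by_cases h6 : k = (δ : ℤ) + j + 1 - N
        · left
          exact ⟨h6, (h5 (by omega)).symm⟩
        · right
          omega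
      · rintro (⟨h1, h2⟩ | h1)
        · refine ⟨Or.inr (Or.inl ⟨by omega, by omega, fun _ => by omega⟩), by omega, by omega, by omega,
            fun _ => h2.symm⟩
        · rcases h1 with h1 | h1
          · refine ⟨Or.inr (Or.inl ⟨by omega, by omega, fun _ => by omega⟩), by omega, by omega, by omega,
              fun _ => by omega⟩
          · refine ⟨Or.inr (Or.inr ⟨by omega, by omega⟩), by omega, by omega, by omega, fun _ => by omega⟩
    have h2 := AC_add hM a (S := insert (((δ : ℤ) + j + 1, true) : ℤ × Bool) (Aj N δ t (j : ℤ)))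
      (Set.insert_subset hx1 hsub) hx2 (by
        rintro (h | h)
        · simp at h
        · exact hn1 false h) h1 (by rw [hl2]; exact hlink false)
    have hs : insert (((δ : ℤ) + j + 1, false) : ℤ × Bool)
        (insert (((δ : ℤ) + j + 1, true) : ℤ × Bool) (Aj N δ t (j : ℤ))) = Aj N δ t ((j + 1 : ℕ) : ℤ) := by
      ext ⟨k, s⟩
      simp only [Aj, Set.mem_insert_iff, Set.mem_ofPred_eq, Prod.mk.injEq]
      push_cast
      constructor
      · rintro (⟨h3, _⟩ | ⟨h3, _⟩ | h3 | h3)
        · right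
          omega
        · right
          omega
        · left
          exact h3
        · right
          omega
      · rintro (h3 | h3)
        · right; right; left
          exact h3
        · by_cases h4 : k = (δ : ℤ) + j + 1
          · cases s
            · left
              exact ⟨h4, rfl⟩
            · right; left
              exact ⟨h4, rfl⟩
          · right; right; right
            omega
    rw [hs] at h2
    have hp : (1 + Polynomial.X) * (1 + 2 * Polynomial.X) ^ q +
      ((j + 1 : ℕ) : Polynomial ℤ) * (2 * Polynomial.X * ((1 + Polynomial.X) * (1 + 2 * Polynomial.X) ^ (q - 1))) =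
      (1 + Polynomial.X) * (1 + 2 * Polynomial.X) ^ q +
      (j : Polynomial ℤ) * (2 * Polynomial.X * ((1 + Polynomial.X) * (1 + 2 * Polynomial.X) ^ (q - 1))) +
      Polynomial.X * ((1 + Polynomial.X) * (1 + 2 * Polynomial.X) ^ (q - 1)) +
      Polynomial.X * ((1 + Polynomial.X) * (1 + 2 * Polynomial.X) ^ (q - 1)) := by
      push_cast
      ring
    rw [hp]
    exact h2

/-- the face polynomial of the outer part -/
noncomputable def Qs (q : ℕ) : Polynomial ℤ :=
  (1 + Polynomial.X) * (1 + 2 * Polynomial.X) ^ q +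
    (q : Polynomial ℤ) * (2 * Polynomial.X * ((1 + Polynomial.X) * (1 + 2 * Polynomial.X) ^ (q - 1))) +
    Polynomial.X * (1 + 2 * Polynomial.X) ^ q

include hM in
theorem SP_Ss (δ q : ℕ) (hN : N = δ + q + 1) (s t : Bool) : SP N a (Ss N δ s t) (q + 1) (Qs q) := by
  have h0 := AC_Aj hM a δ q hN t q le_rfl
  have hq : ((N : ℤ) - 1 - δ) = (q : ℤ) := by omega
  unfold Ss Qs
  rw [hq]
  have hsub : Aj N δ t (q : ℤ) ⊆ W N := by
    rintro ⟨k, s⟩ hk
    simp only [Aj, Set.mem_ofPred_eq] at hk
    constructor <;> show _ ≤ _ <;> simp only <;> omega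
  have hl : {y ∈ Aj N δ t (q : ℤ) | E N ((N : ℤ), s) y} = U (Finset.Icc ((δ : ℤ) + 1) (δ + q)) := by
    ext ⟨k, r⟩
    simp only [U, Aj, E, Set.mem_ofPred_eq, Finset.mem_Icc]
    constructor
    · rintro ⟨h1, h2, h3, h4, h5⟩
      omega
    · intro h1
      refine ⟨Or.inr h1, by omega, by omega, by omega, fun _ => by omega⟩
  have hc : (Finset.Icc ((δ : ℤ) + 1) (δ + q)).card = q := by
    rw [Int.card_Icc]
    omega
  have h1 := SP_U hM a (I := Finset.Icc ((δ : ℤ) + 1) (δ + q)) (by
      intro k hk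
      rw [Finset.mem_Icc] at hk
      omega) (by
      intro k hk l hl
      rw [Finset.mem_Icc] at hk hl
      omega)
  rw [hc] at h1
  refine SP_cap hM a hsub ⟨by simp only; omega, by simp⟩ ?_ h0 (by rw [hl]; exact h1)
  simp only [Aj, Set.mem_ofPred_eq]
  omega

end

end Pool.Agent.N428.FM
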